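import Pool.Agent.H9.Proxy.Compact

open Set Cardinal Ordinal Filter

universe u

namespace Pool.Agent.H9.Proxy

/-- the filter on `P_σ(K)` generated by the cones -/
def coneFilter (K : Type u) {σ : Cardinal.{u}} (hσ : ℵ₀ ≤ σ) : Filter {s : Set K // #s < σ} where
  sets := {A | ∃ t : Set K, #t < σ ∧ ∀ s : {s : Set K // #s < σ}, t ⊆ s.1 → s ∈ A}
  univ_sets := ⟨∅, by simpa using (Cardinal.aleph0_pos.trans_le hσ), fun _ _ => mem_univ _⟩
  sets_of_superset := by
    rintro A B ⟨t, h1, h2⟩ hAB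
    exact ⟨t, h1, fun s hs => hAB (h2 s hs)⟩
  inter_sets := by
    rintro A B ⟨t, h1, h2⟩ ⟨t', h1', h2'⟩
    refine ⟨t ∪ t', (Cardinal.mk_union_le _ _).trans_lt (Cardinal.add_lt_of_lt hσ h1 h1'), ?_⟩
    intro s hs
    exact ⟨h2 s (subset_union_left.trans hs), h2' s (subset_union_right.trans hs)⟩

theorem coneFilter_neBot (K : Type u) {σ : Cardinal.{u}} (hσ : ℵ₀ ≤ σ) :
    (coneFilter K hσ).NeBot := by
  rw [Filter.neBot_iff]
  intro h
  have : (∅ : Set {s : Set K // #s < σ}) ∈ coneFilter K hσ := by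
    rw [h]; exact Filter.mem_bot
  obtain ⟨t, h1, h2⟩ := this
  exact h2 ⟨t, h1⟩ subset_rfl

theorem coneFilter_complete (K : Type u) {σ : Cardinal.{u}} (hσ : ℵ₀ ≤ σ) (hr : σ.IsRegular) :
    CardinalInterFilter (coneFilter K hσ) σ := by
  refine ⟨fun S hS h => ?_⟩
  choose! t h1 h2 using fun A (hA : A ∈ S) => (h A hA : ∃ t : Set K, #t < σ ∧
    ∀ s : {s : Set K // #s < σ}, t ⊆ s.1 → s ∈ A)
  refine ⟨⋃ A : S, t A, ?_, ?_⟩
  · rw [Cardinal.card_iUnion_lt_iff_forall_of_isRegular hr hS]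
    exact fun A => h1 A A.2
  · intro s hs A hA
    exact h2 A hA s ((subset_iUnion (fun A : S => t A) ⟨A, hA⟩).trans hs)

/-- Solovay's covering family: for regular `κ` above a strongly compact `σ` there are a subset
`E'` of `κ` of size `κ` and sets `M_α` (`α < κ`) of size less than `σ` such that every subset of
`E'` of size less than `σ` is contained in some `M_α`. -/
theorem exists_cover {σ κ : Cardinal.{u}} (hσ : StronglyCompact σ) (hκ : κ.IsRegular)
    (hσκ : σ ≤ κ) : ∃ (E' : Set κ.ord.ToType) (M : κ.ord.ToType → Set κ.ord.ToType), #E' = κ ∧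
      (∀ a, #(M a) < σ) ∧ ∀ (T : Type u) (φ : T → κ.ord.ToType), #T < σ → (∀ t, φ t ∈ E') →
        ∃ a, ∀ t, φ t ∈ M a := by
  classical
  obtain ⟨hσr, hσ0, hσc⟩ := hσ
  have h0κ : ℵ₀ < κ := hσ0.trans_le hσκ
  have hlim := Cardinal.isSuccLimit_ord hκ.aleph0_le
  let K := κ.ord.ToType
  let o : K → Ordinal.{u} := fun a => ((Ordinal.ToType.mk (o := κ.ord)).symm a : Ordinal)
  have hoκ : ∀ a, o a < κ.ord := fun a => ((Ordinal.ToType.mk (o := κ.ord)).symm a).2
  have homk : ∀ β (h : β < κ.ord), o (Ordinal.ToType.mk ⟨β, h⟩) = β := by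
    intro β h
    simp only [o, OrderIso.symm_apply_apply]
  have hoinj : Function.Injective o := by
    intro a b hab
    exact (Ordinal.ToType.mk (o := κ.ord)).symm.injective (Subtype.ext hab)
  let X := {s : Set K // #s < σ}
  obtain ⟨U, hUF, hU⟩ := hσc X (coneFilter K hσ0.le) (coneFilter_neBot K hσ0.le)
    (coneFilter_complete K hσ0.le hσr)
  have hfine : ∀ a : K, ∀ᶠ s in (U : Filter X), a ∈ s.1 := by
    intro a
    apply hUF
    refine ⟨{a}, ?_, fun s hs => hs rfl⟩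
    rw [Cardinal.mk_singleton]
    exact Cardinal.one_lt_aleph0.trans hσ0
  have hcount : CountableInterFilter (U : Filter X) :=
    CardinalInterFilter.toCountableInterFilter _ hσ0
  let f₀ : X → Ordinal.{u} := fun s => ⨆ a : s.1, (o a + 1)
  have hf₀1 : ∀ s, f₀ s < κ.ord := by
    intro s
    apply Ordinal.iSup_lt_of_lt_cof
    · rw [hκ.cof_ord]
      exact s.2.trans_le hσκ
    · exact fun a => hlim.add_one_lt (hoκ a)
  have hf₀2 : ∀ β < κ.ord, ∀ᶠ s in (U : Filter X), β < f₀ s := by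
    intro β hβ
    filter_upwards [hfine (Ordinal.ToType.mk ⟨β, hβ⟩)] with s hs
    have h1 : o (Ordinal.ToType.mk ⟨β, hβ⟩) + 1 ≤ f₀ s :=
      le_ciSup (f := fun a : s.1 => o a + 1) Ordinal.bddAbove_of_small ⟨_, hs⟩
    rw [homk] at h1
    exact (lt_add_one _).trans_le h1
  obtain ⟨f, hf1, hf2, hf3⟩ := exists_minimal U f₀ hf₀1 hf₀2
  let P : X → Prop := fun s => ∀ β < f s, ∃ a ∈ s.1, β ≤ o a ∧ o a < f s
  have hP : ∀ᶠ s in (U : Filter X), P s := by
    by_contra hcon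
    have h1 : ∀ᶠ s in (U : Filter X), ¬ P s := Ultrafilter.eventually_not.2 hcon
    let g : X → Ordinal.{u} := fun s =>
      if h : ∃ β < f s, ∀ a ∈ s.1, β ≤ o a → f s ≤ o a then h.choose else 0
    have h2 : ∀ᶠ s in (U : Filter X), g s < f s ∧ ∀ a ∈ s.1, g s ≤ o a → f s ≤ o a := by
      filter_upwards [h1] with s hs
      have h3 : ∃ β < f s, ∀ a ∈ s.1, β ≤ o a → f s ≤ o a := by
        simp only [P] at hs
        push Not at hs
        exact hs
      simp only [g, dif_pos h3]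
      exact h3.choose_spec
    obtain ⟨β, hβ, h3⟩ := hf3 g (h2.mono fun s hs => hs.1)
    obtain ⟨s, ⟨⟨h4, h5⟩, h6⟩, h7⟩ :=
      (((h2.and h3).and (hfine (Ordinal.ToType.mk ⟨β, hβ⟩))).and (hf2 β hβ)).exists
    have h8 := h4.2 _ h6 (by rw [homk]; exact h5)
    rw [homk] at h8
    exact absurd h7 (not_lt.2 h8)
  let rep : Ordinal.{u} → Set K := fun α => if h : ∃ s : X, f s = α ∧ P s then h.choose.1 else ∅
  have hrep1 : ∀ α, #(rep α) < σ := by
    intro α
    by_cases h : ∃ s : X, f s = α ∧ P s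
    · simp only [rep, dif_pos h]
      exact h.choose.2
    · simp only [rep, dif_neg h]
      simpa using Cardinal.aleph0_pos.trans hσ0
  have hrep2 : ∀ᶠ s in (U : Filter X), ∀ β < f s, ∃ a ∈ rep (f s), β ≤ o a ∧ o a < f s := by
    filter_upwards [hP] with s hs
    have h : ∃ s' : X, f s' = f s ∧ P s' := ⟨s, rfl, hs⟩
    intro β hβ
    have h1 := h.choose_spec
    have h2 := h1.2 β (by rw [h1.1]; exact hβ)
    rw [h1.1] at h2
    simp only [rep, dif_pos h]
    exact h2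
  have hnext : ∀ β < κ.ord, ∃ β' < κ.ord, ∀ᶠ s in (U : Filter X),
      sInf {γ | ∃ a ∈ rep (f s), o a = γ ∧ β ≤ γ ∧ γ < f s} ≤ β' := by
    intro β hβ
    refine hf3 _ ?_
    filter_upwards [hrep2, hf2 β hβ] with s h1 h2
    obtain ⟨a, ha, h3, h4⟩ := h1 β h2
    have h5 : o a ∈ {γ | ∃ a ∈ rep (f s), o a = γ ∧ β ≤ γ ∧ γ < f s} := ⟨a, ha, rfl, h3, h4⟩
    exact (csInf_le' h5).trans_lt h4
  choose! h hh1 hh2 using hnext
  have hh3 : ∀ β < κ.ord, ∀ᶠ s in (U : Filter X),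
      ∃ a ∈ rep (f s), β ≤ o a ∧ o a ≤ h β := by
    intro β hβ
    filter_upwards [hh2 β hβ, hrep2, hf2 β hβ] with s h1 h2 h3
    obtain ⟨a, ha, h4, h5⟩ := h2 β h3
    have h6 : {γ | ∃ a ∈ rep (f s), o a = γ ∧ β ≤ γ ∧ γ < f s}.Nonempty := ⟨o a, a, ha, rfl, h4, h5⟩
    obtain ⟨b, hb, h7, h8, h9⟩ := csInf_mem h6
    exact ⟨b, hb, by rw [h7]; exact h8, by rw [h7]; exact h1⟩
  have hE := clubIn_closure hκ h0κ hh1
  set E : Set Ordinal.{u} := {γ | γ < κ.ord ∧ Order.IsSuccLimit γ ∧ ∀ β < γ, h β < γ} with hEdef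
  let E' : Set K := {a | o a ∈ E}
  let M : Ordinal.{u} → Set K := fun α =>
    {a | o a ∈ E ∧ ∃ b ∈ rep α, o a ≤ o b ∧ o b ≤ h (o a)}
  refine ⟨E', fun a => M (o a), ?_, ?_, ?_⟩
  · have h1 : o '' E' = E := by
      ext γ
      constructor
      · rintro ⟨a, ha, rfl⟩
        exact ha
      · intro hγ
        refine ⟨Ordinal.ToType.mk ⟨γ, hγ.1⟩, ?_, homk _ _⟩
        show o _ ∈ E
        rw [homk]
        exact hγ
    have h2 : Cardinal.lift.{u} #(o '' E') = Cardinal.lift.{u + 1} #E' :=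
      Cardinal.mk_image_eq_lift o E' hoinj
    rw [h1, mk_of_cofinalIn hκ hE.1] at h2
    have h3 : Cardinal.lift.{u + 1} κ = Cardinal.lift.{u + 1} #E' := by
      simpa using h2
    exact (Cardinal.lift_injective h3).symm
  · intro a
    choose r hr1 hr2 using fun b : M (o a) => b.2.2
    refine lt_of_le_of_lt ?_ (hrep1 (o a))
    refine Cardinal.mk_le_of_injective (f := fun b : M (o a) => (⟨r b, hr1 b⟩ : rep (o a))) ?_
    intro b b' hbb
    simp only [Subtype.mk.injEq] at hbb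
    have h1 := hr2 b
    have h2 := hr2 b'
    rw [← hbb] at h2
    have h3 := b.2.1
    have h4 := b'.2.1
    apply Subtype.ext
    apply hoinj
    by_contra hne
    rcases lt_or_gt_of_ne hne with hlt | hlt
    · have h5 := h4.2.2 _ hlt
      exact absurd (h2.1.trans h1.2) (not_le.2 h5)
    · have h5 := h3.2.2 _ hlt
      exact absurd (h1.1.trans h2.2) (not_le.2 h5)
  · intro T φ hT hφ
    have h1 : ∀ᶠ s in (U : Filter X), ∀ t, φ t ∈ M (f s) := by
      rw [Filter.eventually_cardinal_forall hT]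
      intro t
      filter_upwards [hh3 _ (hφ t).1] with s hs
      exact ⟨hφ t, hs⟩
    obtain ⟨s, hs⟩ := h1.exists
    refine ⟨Ordinal.ToType.mk ⟨f s, hf1 s⟩, fun t => ?_⟩
    show φ t ∈ M (o _)
    rw [homk]
    exact hs t

/-- Solovay: `κ^τ = κ` for `τ < σ ≤ κ`, `σ` strongly compact, `κ` regular (here with the
additional assumption `2^σ ≤ κ`, which is all that we need). -/
theorem solovay {σ κ τ : Cardinal.{u}} (hσ : StronglyCompact σ) (hκ : κ.IsRegular)
    (h2 : 2 ^ σ ≤ κ) (hτ : τ < σ) : κ ^ τ ≤ κ := by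
  have hσκ : σ ≤ κ := (Cardinal.cantor σ).le.trans h2
  obtain ⟨E', M, hE', hM, hcov⟩ := exists_cover hσ hκ hσκ
  let T := τ.ord.ToType
  have hT : #T = τ := by simp [T]
  have h1 : #(T → E') = κ ^ τ := by
    calc #(T → E') = #E' ^ #T := (Cardinal.power_def _ _).symm
      _ = κ ^ τ := by rw [hE', hT]
  rw [← h1]
  have h3 : #(T → E') ≤ #(Σ a : κ.ord.ToType, (T → M a)) := by
    choose A hA using fun φ : T → E' => hcov T (fun t => φ t) (by rw [hT]; exact hτ)
      (fun t => (φ t).2)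
    refine Cardinal.mk_le_of_injective (f := fun φ => ⟨A φ, fun t => ⟨φ t, hA φ t⟩⟩) ?_
    intro φ ψ hφψ
    rw [Sigma.mk.injEq] at hφψ
    obtain ⟨h4, h5⟩ := hφψ
    funext t
    apply Subtype.ext
    have h6 : ∀ (a b : κ.ord.ToType) (x : T → M a) (y : T → M b), a = b → HEq x y →
        ∀ t, ((x t : M a) : κ.ord.ToType) = (y t : M b) := by
      rintro a b x y rfl hxy t
      rw [eq_of_heq hxy]
    exact h6 _ _ _ _ h4 h5 t
  refine h3.trans ?_
  rw [Cardinal.mk_sigma]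
  have h4 : ∀ a : κ.ord.ToType, #(T → M a) ≤ 2 ^ σ := by
    intro a
    have h5 : #(T → M a) = #(M a) ^ τ := by rw [← hT, Cardinal.power_def]
    rw [h5]
    have h6 : ℵ₀ ≤ σ := hσ.2.1.le
    calc #(M a) ^ τ ≤ σ ^ τ := Cardinal.power_le_power_right (hM a).le
      _ ≤ σ ^ σ := Cardinal.power_le_power_left (Cardinal.aleph0_pos.trans_le h6).ne' hτ.le
      _ = 2 ^ σ := Cardinal.power_self_eq h6
  calc Cardinal.sum (fun a : κ.ord.ToType => #(T → M a))
      ≤ Cardinal.sum (fun _ : κ.ord.ToType => (2 : Cardinal.{u}) ^ σ) :=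
        Cardinal.sum_le_sum _ _ h4
    _ = κ * 2 ^ σ := by
        rw [Cardinal.sum_const']
        simp
    _ ≤ κ * κ := mul_le_mul_right h2 κ
    _ = κ := Cardinal.mul_eq_self hκ.aleph0_le

end Pool.Agent.H9.Proxy
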