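import Pool.Agent.H9.Proxy.Gregory
import Pool.Agent.H9.Proxy.Solovay

open Set Cardinal Ordinal Filter

universe u

namespace Pool.Agent.H9.Proxy

/-- a strongly compact cardinal is larger than `ℵ₁` (Ulam) -/
theorem aleph_one_lt {σ : Cardinal.{u}} (hσ : StronglyCompact σ) : ℵ₁ < σ := by
  classical
  obtain ⟨hσr, hσ0, hσc⟩ := hσ
  rcases lt_or_ge ℵ₁ σ with h | h
  · exact h
  exfalso
  let X := (ℵ₁ : Cardinal.{u}).ord.ToType
  let F : Filter X := cocardinal X Cardinal.isRegular_aleph_one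
  have hF : F.NeBot := by
    rw [← Filter.frequently_true_iff_neBot, Filter.frequently_cocardinal]
    simp [X]
  have hFc : CardinalInterFilter F σ :=
    CardinalInterFilter.of_cardinalInterFilter_of_le (c := ℵ₁) F h
  obtain ⟨U, hUF, hU⟩ := hσc X F hF hFc
  have hcount : CountableInterFilter (U : Filter X) :=
    CardinalInterFilter.toCountableInterFilter _ hσ0
  have h1 : #X ≤ #(Set (ULift.{u} ℕ)) := by
    rw [Cardinal.mk_set]
    simp only [X, Cardinal.mk_toType, Cardinal.card_ord, Cardinal.mk_uLift, Cardinal.mk_nat,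
      Cardinal.lift_aleph0]
    exact Cardinal.aleph_one_le_continuum
  obtain ⟨g⟩ := Cardinal.le_def _ _ |>.1 h1
  let b : Set (ULift.{u} ℕ) := {n | ∀ᶠ x in (U : Filter X), n ∈ g x}
  have h2 : ∀ n, ∀ᶠ x in (U : Filter X), (n ∈ g x ↔ n ∈ b) := by
    intro n
    by_cases hn : n ∈ b
    · have : ∀ᶠ x in (U : Filter X), n ∈ g x := hn
      filter_upwards [this] with x hx
      exact ⟨fun _ => hn, fun _ => hx⟩
    · have : ∀ᶠ x in (U : Filter X), ¬ n ∈ g x := Ultrafilter.eventually_not.2 hn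
      filter_upwards [this] with x hx
      exact ⟨fun h => absurd h hx, fun h => absurd h hn⟩
  have h3 : ∀ᶠ x in (U : Filter X), ∀ n, (n ∈ g x ↔ n ∈ b) := by
    rw [eventually_countable_forall]
    exact h2
  obtain ⟨x, hx⟩ := h3.exists
  have h4 : ∀ᶠ y in (U : Filter X), y ≠ x := by
    apply hUF
    show _ ∈ cocardinal X _
    rw [Filter.mem_cocardinal]
    have : ({y : X | y ≠ x}ᶜ : Set X) = {x} := by
      ext y; simp
    have h5 : #({y : X | y ≠ x}ᶜ : Set X) = 1 := by
      rw [this, Cardinal.mk_singleton]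
    exact h5.trans_lt (Cardinal.one_lt_aleph0.trans Cardinal.aleph0_lt_aleph_one)
  obtain ⟨y, hy, hyx⟩ := (h3.and h4).exists
  apply hyx
  apply g.injective
  ext n
  rw [hy, hx]

theorem cof_ord_beth {o : Ordinal.{u}} (ho : Order.IsSuccLimit o) :
    (ℶ_ o).ord.cof = o.cof := by
  rw [Cardinal.beth_limit ho, Ordinal.iSup_ord]
  refine Ordinal.cof_iSup_Iio (f := fun a : Iio o => (ℶ_ a).ord) ?_ ho.isSuccPrelimit
  intro a b hab
  exact Cardinal.ord_lt_ord.2 (Cardinal.beth_strictMono hab)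

theorem power_aleph0_le {lam : Cardinal.{u}} (h1 : lam.IsStrongLimit) (h2 : ℵ₀ < lam.ord.cof) :
    lam ^ ℵ₀ ≤ lam := by
  let L := lam.ord.ToType
  have hL : #L = lam := by simp [L]
  have h0 : ℵ₀ ≤ lam := h1.aleph0_le
  let A := ULift.{u} ℕ × L
  have hA : #A = lam := by
    rw [Cardinal.mk_prod, Cardinal.lift_id, Cardinal.lift_id, Cardinal.mk_uLift, hL]
    simp only [Cardinal.mk_nat, Cardinal.lift_aleph0]
    exact Cardinal.aleph0_mul_eq h0
  have h3 := Cardinal.mk_subset_mk_lt_cof (α := A) (by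
    rw [hA]; exact h1.isStrongPrelimit)
  rw [hA] at h3
  have h4 : #(ULift.{u} ℕ → L) = lam ^ ℵ₀ := by
    rw [← Cardinal.power_def, hL]
    simp
  rw [← h4]
  refine le_trans ?_ h3.le
  refine Cardinal.mk_le_of_injective
    (f := fun s : ULift.{u} ℕ → L => ⟨range (fun n => (n, s n)), ?_⟩) ?_
  · refine lt_of_le_of_lt Cardinal.mk_range_le ?_
    simpa using h2
  · intro s t hst
    have h5 : range (fun n => (n, s n)) = range (fun n => (n, t n)) := congrArg Subtype.val hst
    funext n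
    have h6 : (n, s n) ∈ range (fun n => (n, t n)) := by
      rw [← h5]
      exact ⟨n, rfl⟩
    obtain ⟨m, hm⟩ := h6
    have h7 := Prod.mk.inj hm
    rw [← h7.2, h7.1]

theorem two_power_le {lam : Cardinal.{u}} (h1 : lam.IsStrongLimit) :
    2 ^ lam ≤ lam ^ lam.ord.cof := by
  classical
  let L := lam.ord.ToType
  have hL : #L = lam := by simp [L]
  have h0 : ℵ₀ ≤ lam := h1.aleph0_le
  obtain ⟨J, w, hJ, hw1, hw2⟩ := exists_cofinal_family lam.ord
  rw [← hJ]
  let v : J → L := fun j => Ordinal.ToType.mk ⟨w j, hw1 j⟩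
  have hv : ∀ x : L, ∃ j, x < v j := by
    intro x
    have h2 : ((Ordinal.ToType.mk (o := lam.ord)).symm x : Ordinal) < lam.ord :=
      ((Ordinal.ToType.mk (o := lam.ord)).symm x).2
    obtain ⟨j, hj⟩ := hw2 _ ((Cardinal.isSuccLimit_ord h0).add_one_lt h2)
    refine ⟨j, ?_⟩
    have h3 : (Ordinal.ToType.mk (o := lam.ord)).symm x < ⟨w j, hw1 j⟩ := by
      show ((Ordinal.ToType.mk (o := lam.ord)).symm x : Ordinal) < w j
      exact (lt_add_one _).trans_le hj
    have h4 := (Ordinal.ToType.mk (o := lam.ord)).strictMono h3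
    rw [OrderIso.apply_symm_apply] at h4
    exact h4
  have h3 : #(Set L) ≤ #(∀ j : J, Set (Iio (v j))) := by
    refine Cardinal.mk_le_of_injective (f := fun A j => {x | (x : L) ∈ A}) ?_
    intro A B hAB
    ext x
    obtain ⟨j, hj⟩ := hv x
    have h4 := congrFun hAB j
    have h5 : (⟨x, hj⟩ : Iio (v j)) ∈ {y : Iio (v j) | (y : L) ∈ A} ↔
        (⟨x, hj⟩ : Iio (v j)) ∈ {y : Iio (v j) | (y : L) ∈ B} := by
      have h4' : {y : Iio (v j) | (y : L) ∈ A} = {y : Iio (v j) | (y : L) ∈ B} := h4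
      rw [h4']
    exact h5
  rw [Cardinal.mk_set, hL] at h3
  refine h3.trans ?_
  rw [Cardinal.mk_pi]
  calc Cardinal.prod (fun j : J => #(Set (Iio (v j)))) ≤ Cardinal.prod (fun _ : J => lam) := by
        apply Cardinal.prod_le_prod
        intro j
        rw [Cardinal.mk_set]
        have h5 : #(Iio (v j)) < lam := by
          have := Cardinal.mk_Iio_lt (v j) (by simp [L])
          rwa [hL] at this
        exact (h1.isStrongPrelimit h5).le
    _ = lam ^ #J := by rw [Cardinal.prod_const']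

/-- Above a strongly compact cardinal there are arbitrarily large regular `κ` satisfying the
guessing principle at `S^κ_ω`. -/
theorem exists_guess {σ τ : Cardinal.{u}} (hσ : StronglyCompact σ) :
    ∃ κ : Cardinal.{u}, τ < κ ∧ σ < κ ∧ κ.IsRegular ∧ Guess κ := by
  have h1 := aleph_one_lt hσ
  have h0σ : ℵ₀ ≤ σ := hσ.2.1.le
  set o : Ordinal.{u} := (max σ τ).ord + ω₁ with ho
  have hω : Order.IsSuccLimit (ω₁ : Ordinal.{u}) := Cardinal.isSuccLimit_omega 1
  have hol : Order.IsSuccLimit o := Ordinal.isSuccLimit_add _ hω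
  have hoc : o.cof = ℵ₁ := by
    rw [ho, Ordinal.cof_add _ hω.ne_bot, Cardinal.cof_omega_one]
  set lam : Cardinal.{u} := ℶ_ o with hlam
  have hsl : lam.IsStrongLimit := Cardinal.isStrongLimit_beth.2 hol.isSuccPrelimit
  have hcof : lam.ord.cof = ℵ₁ := by rw [hlam, cof_ord_beth hol, hoc]
  have hlt : max σ τ < lam := by
    calc max σ τ ≤ ℶ_ (max σ τ).ord := Cardinal.le_beth_ord _
      _ < ℶ_ o := Cardinal.beth_strictMono (by
        rw [ho]
        exact lt_add_of_pos_right _ (pos_iff_ne_zero.2 hω.ne_bot))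
  have hσl : σ < lam := (le_max_left _ _).trans_lt hlt
  have h0l : ℵ₀ ≤ lam := hsl.aleph0_le
  have hκr : (Order.succ lam).IsRegular := Cardinal.isRegular_succ h0l
  have hsuc : lam < Order.succ lam := Order.lt_succ lam
  have h2 : lam ^ ℵ₀ ≤ lam := power_aleph0_le hsl (by
    rw [hcof]; exact Cardinal.aleph0_lt_aleph_one)
  have h3 : (2 : Cardinal.{u}) ^ σ ≤ Order.succ lam := (hsl.isStrongPrelimit hσl).le.trans hsuc.le
  have h4 : (2 : Cardinal.{u}) ^ lam ≤ Order.succ lam := by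
    calc (2 : Cardinal.{u}) ^ lam ≤ lam ^ lam.ord.cof := two_power_le hsl
      _ = lam ^ (ℵ₁ : Cardinal.{u}) := by rw [hcof]
      _ ≤ (Order.succ lam) ^ (ℵ₁ : Cardinal.{u}) := Cardinal.power_le_power_right hsuc.le
      _ ≤ Order.succ lam := solovay hσ hκr h3 h1
  have h5 : (Order.succ lam) ^ lam ≤ Order.succ lam := by
    calc (Order.succ lam) ^ lam ≤ ((2 : Cardinal.{u}) ^ lam) ^ lam :=
          Cardinal.power_le_power_right (Order.succ_le_of_lt (Cardinal.cantor lam))
      _ = 2 ^ lam := by rw [← Cardinal.power_mul, Cardinal.mul_eq_self h0l]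
      _ ≤ Order.succ lam := h4
  exact ⟨Order.succ lam, ((le_max_right _ _).trans_lt hlt).trans hsuc, hσl.trans hsuc, hκr,
    guess_of_arith h0l rfl h2 h5⟩

end Pool.Agent.H9.Proxy
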