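import Pool.Agent.H9.Proxy.Defs

open Set Cardinal Ordinal

universe u

namespace Pool.Agent.H9.Proxy

theorem bdd_of_subset {x : Set Ordinal.{u}} {a : Ordinal.{u}} (h : x ⊆ Iio a) : BddAbove x :=
  ⟨a, fun _ hy => (h hy).le⟩

theorem IsLim.isSuccLimit {x : Set Ordinal.{u}} {γ : Ordinal.{u}} (h : IsLim x γ) :
    Order.IsSuccLimit γ := by
  refine ⟨fun hm => h.1 (by simpa using hm), fun β hβ => ?_⟩
  obtain ⟨δ, _, h1, h2⟩ := h.2 β hβ.lt
  exact hβ.2 h1 h2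

theorem InK.bdd {κ : Cardinal.{u}} {C : Set Ordinal.{u}} (h : InK κ C) : BddAbove C :=
  bdd_of_subset h.2.1

theorem InK.exists_gt {κ : Cardinal.{u}} {C : Set Ordinal.{u}} (h : InK κ C) {β : Ordinal.{u}}
    (hβ : β < sSup C) : ∃ δ ∈ C, β < δ ∧ δ < sSup C := by
  obtain ⟨δ, hδ, h1⟩ := (lt_csSup_iff' h.bdd).1 hβ
  refine ⟨δ, hδ, h1, lt_of_le_of_ne (le_csSup h.bdd hδ) ?_⟩
  rintro rfl
  exact h.2.2.1 hδ

theorem InK.lt_sSup {κ : Cardinal.{u}} {C : Set Ordinal.{u}} (h : InK κ C) {δ : Ordinal.{u}}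
    (hδ : δ ∈ C) : δ < sSup C := by
  refine lt_of_le_of_ne (le_csSup h.bdd hδ) ?_
  rintro rfl
  exact h.2.2.1 hδ

theorem InK.isLim {κ : Cardinal.{u}} {C : Set Ordinal.{u}} (h : InK κ C) : IsLim C (sSup C) := by
  refine ⟨?_, fun β hβ => h.exists_gt hβ⟩
  obtain ⟨δ, hδ⟩ := h.1
  exact (lt_of_le_of_lt (bot_le : (0 : Ordinal) ≤ δ) (h.lt_sSup hδ)).ne'

theorem sSup_Iio_of_limit {α : Ordinal.{u}} (h : Order.IsSuccLimit α) : sSup (Iio α) = α := by
  apply le_antisymm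
  · exact csSup_le' fun y hy => le_of_lt hy
  · by_contra hlt
    push Not at hlt
    have h1 : sSup (Iio α) + 1 < α := h.add_one_lt hlt
    have h2 : sSup (Iio α) + 1 ≤ sSup (Iio α) := le_csSup (bdd_of_subset subset_rfl) h1
    exact absurd h2 (not_le.2 (lt_add_one _))

/-- if `X` and `Y` agree on `[γ, ρ)` then they have the same limit points in `(γ, ρ)` -/
theorem IsLim.transfer {X Y : Set Ordinal.{u}} {γ ρ z : Ordinal.{u}}
    (hag : ∀ β, γ ≤ β → β < ρ → (β ∈ X ↔ β ∈ Y)) (h1 : γ < z) (h2 : z < ρ)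
    (h : IsLim X z) : IsLim Y z := by
  refine ⟨h.1, fun β hβ => ?_⟩
  obtain ⟨δ, hδ, h3, h4⟩ := h.2 (max β γ) (max_lt hβ h1)
  have h5 : γ ≤ δ := (le_max_right _ _).trans h3.le
  exact ⟨δ, (hag δ h5 (h4.trans h2)).1 hδ, (le_max_left _ _).trans_lt h3, h4⟩

/-- the meaning of `⊑*` for members of `𝒦(κ)` -/
theorem SqStar.agree {κ : Cardinal.{u}} {C D : Set Ordinal.{u}} (hC : InK κ C)
    (h : SqStar C D) : ∃ γ < sSup C, ∀ β, γ ≤ β → β < sSup C → (β ∈ C ↔ β ∈ D) := by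
  obtain ⟨γ, hγ, h⟩ := h
  refine ⟨γ, hγ, fun β h1 h2 => ?_⟩
  have hs : sSup (C \ Iio γ) = sSup C := by
    apply le_antisymm
    · exact csSup_le_csSup' hC.bdd sdiff_subset
    · by_contra hlt
      push Not at hlt
      obtain ⟨δ, hδ, h3, h4⟩ := hC.exists_gt (max_lt hlt hγ)
      have h5 : δ ∈ C \ Iio γ := ⟨hδ, not_lt.2 ((le_max_right _ _).trans h3.le)⟩
      have h6 : δ ≤ sSup (C \ Iio γ) := le_csSup (hC.bdd.mono sdiff_subset) h5
      exact absurd ((le_max_left _ _).trans_lt h3) (not_lt.2 h6)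
  unfold Sq at h
  rw [hs] at h
  constructor
  · intro hβ
    have : β ∈ C \ Iio γ := ⟨hβ, not_lt.2 h1⟩
    rw [h] at this
    exact this.1.1
  · intro hβ
    have : β ∈ (D \ Iio γ) ∩ Iio (sSup C) := ⟨⟨hβ, not_lt.2 h1⟩, h2⟩
    rw [← h] at this
    exact this.1

theorem Sq.sqStar {κ : Cardinal.{u}} {C D : Set Ordinal.{u}} (hC : InK κ C)
    (h : Sq C D) : SqStar C D := by
  refine ⟨0, ?_, ?_⟩
  · exact pos_iff_ne_zero.2 hC.isLim.1
  · have : Iio (0 : Ordinal.{u}) = ∅ := by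
      ext x; simp
    rw [this, sdiff_empty, sdiff_empty]
    exact h

theorem IsSeq.mono {κ μ : Cardinal.{u}} {R R' : Set Ordinal.{u} → Set Ordinal.{u} → Prop}
    {𝒞 : Ordinal.{u} → Set (Set Ordinal.{u})}
    (hR : ∀ C D, InK κ C → InK κ D → R C D → R' C D) (h : IsSeq κ μ R 𝒞) : IsSeq κ μ R' 𝒞 := by
  intro α hα hl
  obtain ⟨h1, h2, h3, h4⟩ := h α hα hl
  refine ⟨h1, h2, h3, fun C hC γ hγ => ?_⟩
  obtain ⟨D, hD, hDC⟩ := h4 C hC γ hγ
  have hγα : γ < α := by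
    have := hγ.1
    rwa [(h1 C hC).2] at this
  have hγ' := h γ (hγα.trans hα) hγ.2.isSuccLimit
  exact ⟨D, hD, hR D C (hγ'.1 D hD).1 (h1 C hC).1 hDC⟩

theorem PMinus.mono {κ μ θ ν : Cardinal.{u}} {R R' : Set Ordinal.{u} → Set Ordinal.{u} → Prop}
    (hR : ∀ C D, InK κ C → InK κ D → R C D → R' C D) (h : PMinus κ μ R θ ν) :
    PMinus κ μ R' θ ν := by
  obtain ⟨𝒞, h1, h2⟩ := h
  exact ⟨𝒞, h1.mono hR, h2⟩

theorem lift_cof_ord {κ : Cardinal.{u}} (hκ : κ.IsRegular) :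
    (Ordinal.lift.{u + 1} κ.ord).cof = Cardinal.lift.{u + 1} κ := by
  rw [← Ordinal.lift_cof, hκ.cof_ord]

theorem mk_of_cofinalIn {κ : Cardinal.{u}} (hκ : κ.IsRegular) {B : Set Ordinal.{u}}
    (hB : CofinalIn κ B) : #B = Cardinal.lift.{u + 1} κ := by
  apply le_antisymm
  · have h1 : #B ≤ #(Iio κ.ord) := Cardinal.mk_le_mk_of_subset hB.1
    rwa [Cardinal.mk_Iio_ordinal, Cardinal.card_ord] at h1
  · by_contra hlt
    push Not at hlt
    have h1 : sSup B < κ.ord := by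
      apply Ordinal.sSup_lt_of_lt_cof
      · rwa [lift_cof_ord hκ]
      · exact fun i hi => hB.1 hi
    have h2 : sSup B + 1 < κ.ord := (Cardinal.isSuccLimit_ord hκ.aleph0_le).add_one_lt h1
    obtain ⟨γ, hγ, h3⟩ := hB.2 _ h2
    have h4 : γ ≤ sSup B := le_csSup (bdd_of_subset hB.1) hγ
    exact absurd (h3.trans h4) (not_le.2 (lt_add_one _))

theorem cofinalIn_of_mk {κ : Cardinal.{u}} {B : Set Ordinal.{u}}
    (h1 : B ⊆ Iio κ.ord) (h2 : Cardinal.lift.{u + 1} κ ≤ #B) : CofinalIn κ B := by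
  refine ⟨h1, fun β hβ => ?_⟩
  by_contra hcon
  push Not at hcon
  have h3 : #B ≤ #(Iio β) := Cardinal.mk_le_mk_of_subset fun γ hγ => hcon γ hγ
  rw [Cardinal.mk_Iio_ordinal] at h3
  have h4 : Cardinal.lift.{u + 1} β.card < Cardinal.lift.{u + 1} κ := by
    rw [Cardinal.lift_lt]
    exact Cardinal.lt_ord.1 hβ
  exact absurd (h2.trans h3) (not_le.2 h4)

/-- a cofinal subset of a regular cardinal splits into `κ` many pairwise disjoint cofinal sets -/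
theorem exists_partition {κ : Cardinal.{u}} (hκ : κ.IsRegular) {E : Set Ordinal.{u}}
    (hE : CofinalIn κ E) : ∃ B : Ordinal.{u} → Set Ordinal.{u},
      (∀ i < κ.ord, CofinalIn κ (B i) ∧ B i ⊆ E) ∧
      ∀ i j x, x ∈ B i → x ∈ B j → i = j := by
  have h1 : #E = #(E × Iio κ.ord) := by
    rw [Cardinal.mk_prod, Cardinal.lift_id, Cardinal.lift_id, Cardinal.mk_Iio_ordinal,
      Cardinal.card_ord, mk_of_cofinalIn hκ hE, Cardinal.mul_eq_self]
    simpa using hκ.aleph0_le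
  obtain ⟨φ⟩ := Cardinal.eq.1 h1
  refine ⟨fun i => {x | ∃ h : x ∈ E, ((φ ⟨x, h⟩).2 : Ordinal) = i}, fun i hi => ⟨?_, ?_⟩, ?_⟩
  · apply cofinalIn_of_mk
    · rintro x ⟨h, -⟩
      exact hE.1 h
    · rw [← mk_of_cofinalIn hκ hE]
      refine Cardinal.mk_le_of_injective
        (f := fun y : E => ⟨(φ.symm (y, ⟨i, hi⟩) : E).1, ?_⟩) ?_
      · exact ⟨(φ.symm (y, ⟨i, hi⟩)).2, by simp⟩
      · intro y y' hyy
        simp only [Subtype.mk.injEq] at hyy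
        have := φ.symm.injective (Subtype.ext hyy)
        exact (Prod.mk.inj this).1
  · rintro x ⟨h, -⟩
    exact h
  · rintro i j x ⟨h, rfl⟩ ⟨h', rfl⟩
    rfl

/-- a set of ordinals of size at least `χ` contains an increasing `χ`-sequence -/
theorem exists_increasing {χ : Cardinal.{u}} {Y : Set Ordinal.{u}} {a : Ordinal.{u}}
    (hY : Y ⊆ Iio a) (h : Cardinal.lift.{u + 1} χ ≤ #Y) :
    ∃ e : Iio χ.ord → Ordinal.{u}, StrictMono e ∧ ∀ i, e i ∈ Y := by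
  set S : Set Ordinal.{u} := Y ∪ Ici a with hS
  have hSu : ¬ BddAbove S := by
    rintro ⟨b, hb⟩
    have h1 : max a (b + 1) ∈ S := Or.inr (mem_Ici.2 (le_max_left _ _))
    have h2 := hb h1
    exact absurd ((le_max_right _ _).trans h2) (not_le.2 (lt_add_one _))
  refine ⟨fun i => Ordinal.enumOrd S i, fun i j hij => Ordinal.enumOrd_strictMono hSu hij,
    fun i => ?_⟩
  by_contra hcon
  have h1 : Ordinal.enumOrd S i ∈ S := Ordinal.enumOrd_mem hSu _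
  have h2 : a ≤ Ordinal.enumOrd S i := h1.resolve_left hcon
  have h3 : Y ⊆ Ordinal.enumOrd S '' Iio (i : Ordinal) := by
    intro y hy
    have h4 : y ∈ Set.range (Ordinal.enumOrd S) := by
      rw [Ordinal.range_enumOrd hSu]
      exact Or.inl hy
    obtain ⟨j, rfl⟩ := h4
    refine ⟨j, ?_, rfl⟩
    have h5 : Ordinal.enumOrd S j < Ordinal.enumOrd S i := lt_of_lt_of_le (hY hy) h2
    exact (Ordinal.enumOrd_lt_enumOrd hSu).1 h5
  have h4 : #Y ≤ #(Iio (i : Ordinal)) :=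
    (Cardinal.mk_le_mk_of_subset h3).trans Cardinal.mk_image_le
  rw [Cardinal.mk_Iio_ordinal] at h4
  have h5 : Cardinal.lift.{u + 1} (i : Ordinal).card < Cardinal.lift.{u + 1} χ := by
    rw [Cardinal.lift_lt]
    exact Cardinal.lt_ord.1 i.2
  exact absurd (h.trans h4) (not_le.2 h5)

end Pool.Agent.H9.Proxy
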