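import Mathlib

open Cardinal Filter

universe u

namespace Pool.Agent.H9.Proxy

/-- `σ` is strongly compact: regular uncountable, and every `σ`-complete (proper) filter on a set
extends to a `σ`-complete ultrafilter. -/
def StronglyCompact (σ : Cardinal.{u}) : Prop :=
  σ.IsRegular ∧ ℵ₀ < σ ∧ ∀ (X : Type u) (F : Filter X), F.NeBot → CardinalInterFilter F σ →
    ∃ U : Ultrafilter X, (U : Filter X) ≤ F ∧ CardinalInterFilter (U : Filter X) σ

end Pool.Agent.H9.Proxy
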