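import Pool.Agent.H9.Proxy.Reflect
import Pool.Agent.H9.Proxy.StrCompact

open Set Cardinal Ordinal Filter

universe u

namespace Pool.Agent.H9.Proxy

theorem eventually_lim {κ : Cardinal.{u}} (hκ : κ.IsRegular) {X : Type u} (U : Ultrafilter X)
    {f : X → Ordinal.{u}} (h2 : ∀ β < κ.ord, ∀ᶠ x in (U : Filter X), β < f x)
    (h3 : ∀ g : X → Ordinal.{u}, (∀ᶠ x in (U : Filter X), g x < f x) →
        ∃ β < κ.ord, ∀ᶠ x in (U : Filter X), g x ≤ β) :
    ∀ᶠ x in (U : Filter X), Order.IsSuccLimit (f x) := by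
  classical
  by_contra hcon
  have h4 : ∀ᶠ x in (U : Filter X), ¬ Order.IsSuccLimit (f x) := Ultrafilter.eventually_not.2 hcon
  have hlim := Cardinal.isSuccLimit_ord hκ.aleph0_le
  have hpos : (0 : Ordinal.{u}) < κ.ord := hκ.ord_pos
  let g : X → Ordinal.{u} := fun x => if h : ∃ a, f x = a + 1 then h.choose else 0
  have h5 : ∀ᶠ x in (U : Filter X), f x = g x + 1 := by
    filter_upwards [h4, h2 0 hpos] with x h6 h7
    have h8 : ∃ a, f x = a + 1 := by
      rcases Ordinal.zero_or_succ_or_isSuccLimit (f x) with h | h | h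
      · exact absurd h h7.ne'
      · obtain ⟨a, ha⟩ := h
        exact ⟨a, by rw [← ha]; rfl⟩
      · exact absurd h h6
    simp only [g, dif_pos h8]
    exact h8.choose_spec
  obtain ⟨β, hβ, h6⟩ := h3 g (by
    filter_upwards [h5] with x hx
    rw [hx]
    exact lt_add_one _)
  obtain ⟨x, ⟨h7, h8⟩, h9⟩ := ((h5.and h6).and (h2 _ (hlim.add_one_lt hβ))).exists
  rw [h7] at h9
  have h10 : g x + 1 ≤ β + 1 := add_le_add_left h8 1
  exact absurd h9 (not_lt.2 h10)

theorem data_of_ultrafilter {κ σ : Cardinal.{u}} (hκ : κ.IsRegular) (hσ : ℵ₀ < σ) {X : Type u}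
    (U : Ultrafilter X) (hU : CardinalInterFilter (U : Filter X) σ) (f₀ : X → Ordinal.{u})
    (h1 : ∀ x, f₀ x < κ.ord) (h2 : ∀ β < κ.ord, ∀ᶠ x in (U : Filter X), β < f₀ x)
    (c : Ordinal.{u} → Set Ordinal.{u})
    (hc : ∀ α < κ.ord, Order.IsSuccLimit α → InK κ (c α) ∧ sSup (c α) = α) :
    ∃ f : X → Ordinal.{u}, Data κ σ c (U : Filter X) f := by
  have hcount : CountableInterFilter (U : Filter X) :=
    CardinalInterFilter.toCountableInterFilter _ hσ
  obtain ⟨f, hf1, hf2, hf3⟩ := exists_minimal U f₀ h1 h2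
  have hl := eventually_lim hκ U hf2 hf3
  refine ⟨f, ⟨inferInstance, hU, hf1, hf2, hl, ?_⟩⟩
  intro β hβ
  refine hf3 _ ?_
  filter_upwards [hl, hf2 β hβ] with x h3 h4
  obtain ⟨hK, hs⟩ := hc (f x) (hf1 x) h3
  obtain ⟨δ, hδ, h5, h6⟩ := hK.exists_gt (β := β) (by rwa [hs])
  rw [hs] at h6
  have h7 : δ ∈ {δ | δ ∈ c (f x) ∧ β < δ} := ⟨hδ, h5⟩
  exact (csInf_le' h7).trans_lt h6

theorem reflects_of_stronglyCompact {σ κ χ : Cardinal.{u}} (hσ : StronglyCompact σ)
    (hκ : κ.IsRegular) (hσκ : σ ≤ κ) (hχ0 : ℵ₀ ≤ χ) (hχ : χ < σ) : Reflects κ χ := by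
  obtain ⟨hσr, hσ0, hσc⟩ := hσ
  have h0κ : ℵ₀ < κ := hσ0.trans_le hσκ
  refine reflects_of_data hκ h0κ hχ0 hχ fun c hc => ?_
  let X := κ.ord.ToType
  let F : Filter X := cocardinal X hκ
  have hF : F.NeBot := by
    rw [← Filter.frequently_true_iff_neBot, Filter.frequently_cocardinal]
    simp [X]
  have hFc : CardinalInterFilter F σ := by
    exact CardinalInterFilter.of_cardinalInterFilter_of_le (c := κ) F hσκ
  obtain ⟨U, hUF, hU⟩ := hσc X F hF hFc
  have hmain := data_of_ultrafilter hκ hσ0 U hU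
    (fun x => ((Ordinal.ToType.mk (o := κ.ord)).symm x : Ordinal))
    (fun x => ((Ordinal.ToType.mk (o := κ.ord)).symm x).2) ?_ c hc
  · obtain ⟨f, hf⟩ := hmain
    exact ⟨X, _, f, hf⟩
  · intro β hβ
    apply hUF
    show _ ∈ cocardinal X hκ
    rw [Filter.mem_cocardinal]
    have hβ1 : β + 1 < κ.ord := (Cardinal.isSuccLimit_ord hκ.aleph0_le).add_one_lt hβ
    let t : X := Ordinal.ToType.mk ⟨β + 1, hβ1⟩
    have h2 : #(Iio t) < κ := by
      have := Cardinal.mk_Iio_lt t (by simp [X])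
      simpa [X] using this
    refine lt_of_le_of_lt (Cardinal.mk_le_mk_of_subset ?_) h2
    intro x hx
    have hx' : ((Ordinal.ToType.mk (o := κ.ord)).symm x : Ordinal) ≤ β := not_lt.1 hx
    have h3 : (Ordinal.ToType.mk (o := κ.ord)).symm x < ⟨β + 1, hβ1⟩ := by
      show ((Ordinal.ToType.mk (o := κ.ord)).symm x : Ordinal) < β + 1
      exact hx'.trans_lt (lt_add_one _)
    have h4 := (Ordinal.ToType.mk (o := κ.ord)).strictMono h3
    rw [OrderIso.apply_symm_apply] at h4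
    exact h4

end Pool.Agent.H9.Proxy
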