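import Mathlib

/-!
# The proxy principle `P⁻(κ, μ, R, θ, {κ}, ν)`

Definitions, following the conventions of the problem file.
-/

open Set Cardinal Ordinal

universe u

namespace Pool.Agent.H9.Proxy

/-- `γ` is a limit point of `x`: a nonzero ordinal such that `x` is unbounded in `γ`. -/
def IsLim (x : Set Ordinal.{u}) (γ : Ordinal.{u}) : Prop :=
  γ ≠ 0 ∧ ∀ β < γ, ∃ δ ∈ x, β < δ ∧ δ < γ

/-- `acc(x)`: the limit points of `x` below `sup x`. -/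
def acc (x : Set Ordinal.{u}) : Set Ordinal.{u} :=
  {γ | γ < sSup x ∧ IsLim x γ}

/-- `nacc(x) = x \ acc(x)`. -/
def nacc (x : Set Ordinal.{u}) : Set Ordinal.{u} := x \ acc x

/-- `𝒦(κ)`: the nonempty `C ⊆ κ` that are club in `α_C := sup C`, with `α_C ∉ C`. -/
def InK (κ : Cardinal.{u}) (C : Set Ordinal.{u}) : Prop :=
  C.Nonempty ∧ C ⊆ Iio κ.ord ∧ sSup C ∉ C ∧ acc C ⊆ C

/-- `C ⊑ D` iff `C = D ∩ α_C`. -/
def Sq (C D : Set Ordinal.{u}) : Prop := C = D ∩ Iio (sSup C)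

/-- `C ⊑* D` iff `C \ γ ⊑ D \ γ` for some `γ < α_C`. -/
def SqStar (C D : Set Ordinal.{u}) : Prop := ∃ γ < sSup C, Sq (C \ Iio γ) (D \ Iio γ)

/-- `C _χR D` iff `C R D` or `cf(α_C) < χ`. -/
def LeftRel (χ : Cardinal.{u}) (R : Set Ordinal.{u} → Set Ordinal.{u} → Prop)
    (C D : Set Ordinal.{u}) : Prop := R C D ∨ (sSup C).cof < χ

/-- `C R_χ D` iff `C R D` or (`otp(D) < χ` and every element of `nacc(D)` is a successor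
ordinal). -/
def RightRel (χ : Cardinal.{u}) (R : Set Ordinal.{u} → Set Ordinal.{u} → Prop)
    (C D : Set Ordinal.{u}) : Prop :=
  R C D ∨ (typeLT D < Ordinal.lift.{u + 1} χ.ord ∧ ∀ β ∈ nacc D, ∃ γ, β = γ + 1)

/-- `C ^ΩR D` iff `C R D` and `α_C ∉ Ω`. -/
def OmegaRel (Ω : Set Ordinal.{u}) (R : Set Ordinal.{u} → Set Ordinal.{u} → Prop)
    (C D : Set Ordinal.{u}) : Prop := R C D ∧ sSup C ∉ Ω

/-- `⟨𝒞_α | α < κ⟩` is a `(κ, μ, R)`-sequence. -/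
def IsSeq (κ μ : Cardinal.{u}) (R : Set Ordinal.{u} → Set Ordinal.{u} → Prop)
    (𝒞 : Ordinal.{u} → Set (Set Ordinal.{u})) : Prop :=
  ∀ α < κ.ord, Order.IsSuccLimit α →
    (∀ C ∈ 𝒞 α, InK κ C ∧ sSup C = α) ∧ (𝒞 α).Nonempty ∧ #(𝒞 α) < Cardinal.lift.{u + 1} μ ∧
    ∀ C ∈ 𝒞 α, ∀ γ ∈ acc C, ∃ D ∈ 𝒞 γ, R D C

/-- `B` is a cofinal subset of `κ`. -/
def CofinalIn (κ : Cardinal.{u}) (B : Set Ordinal.{u}) : Prop :=
  B ⊆ Iio κ.ord ∧ ∀ β < κ.ord, ∃ γ ∈ B, β ≤ γ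

/-- `E` is a club subset of `κ`. -/
def ClubIn (κ : Cardinal.{u}) (E : Set Ordinal.{u}) : Prop :=
  CofinalIn κ E ∧ ∀ γ < κ.ord, IsLim E γ → γ ∈ E

/-- `S` is stationary in `κ`: it meets every club subset of `κ`. -/
def StatIn (κ : Cardinal.{u}) (S : Set Ordinal.{u}) : Prop :=
  ∀ E, ClubIn κ E → (S ∩ E).Nonempty

/-- The proxy principle `P⁻(κ, μ, R, θ, {κ}, ν)`. -/
def PMinus (κ μ : Cardinal.{u}) (R : Set Ordinal.{u} → Set Ordinal.{u} → Prop)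
    (θ ν : Cardinal.{u}) : Prop :=
  ∃ 𝒞 : Ordinal.{u} → Set (Set Ordinal.{u}), IsSeq κ μ R 𝒞 ∧
    ∀ B : Ordinal.{u} → Set Ordinal.{u}, (∀ i < θ.ord, CofinalIn κ (B i)) →
      StatIn κ {α | α < κ.ord ∧ #(𝒞 α) < Cardinal.lift.{u + 1} ν ∧
        ∀ C ∈ 𝒞 α, ∀ i < min α θ.ord, sSup (nacc C ∩ B i) = α}

end Pool.Agent.H9.Proxy
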