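import Pool.Agent.H9.Proxy.Defs

/-!
# Hypotheses on cardinals used in the refutations
-/

open Set Cardinal Ordinal

universe u

namespace Pool.Agent.H9.Proxy

/-- `κ` is weakly compact: inaccessible, and every tree of height `κ` consisting of subsets
`s ⊆ ξ` (`ξ < κ`), ordered by end-extension, has a cofinal branch. -/
def WeaklyCompact (κ : Cardinal.{u}) : Prop :=
  κ.IsInaccessible ∧ ∀ T : Ordinal.{u} → Set (Set Ordinal.{u}),
    (∀ ξ < κ.ord, (T ξ).Nonempty ∧ ∀ s ∈ T ξ, s ⊆ Iio ξ) →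
    (∀ ξ < κ.ord, ∀ s ∈ T ξ, ∀ η < ξ, s ∩ Iio η ∈ T η) →
    ∃ b : Set Ordinal.{u}, ∀ ξ < κ.ord, b ∩ Iio ξ ∈ T ξ

/-- `♦(S^κ_ω)`: there are `A_α ⊆ α` such that for every `B ⊆ κ` the set of `α < κ` of cofinality
`ω` with `B ∩ α = A_α` is stationary in `κ`. -/
def Diamond (κ : Cardinal.{u}) : Prop :=
  ∃ A : Ordinal.{u} → Set Ordinal.{u}, ∀ B ⊆ Iio κ.ord,
    StatIn κ {α | α < κ.ord ∧ α.cof = ℵ₀ ∧ B ∩ Iio α = A α}

/-- `S ∩ α` is stationary in `α`: `S` meets every closed unbounded subset of `α`. -/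
def StatBelow (α : Ordinal.{u}) (S : Set Ordinal.{u}) : Prop :=
  ∀ D ⊆ Iio α, (∀ β < α, ∃ γ ∈ D, β ≤ γ) → (∀ γ < α, IsLim D γ → γ ∈ D) → (S ∩ D).Nonempty

/-- Full reflection of `S^κ_ω` in `S^κ_lam` (Magidor, Jech-Shelah): every stationary subset of `κ`
which consists of points of cofinality `ω` reflects at almost all `α < κ` of cofinality `lam`, that
is, at all of them which lie in some club. -/
def FullReflection (κ lam : Cardinal.{u}) : Prop :=
  ∀ S : Set Ordinal.{u}, S ⊆ {δ | δ < κ.ord ∧ δ.cof = ℵ₀} → StatIn κ S →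
    ∃ E, ClubIn κ E ∧ ∀ α ∈ E, α.cof = lam → StatBelow α S

end Pool.Agent.H9.Proxy
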