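import Pool.Agent.H9.Proxy.Gregory
import Pool.Agent.H9.Proxy.Hyp

open Set Cardinal Ordinal

universe u

namespace Pool.Agent.H9.Proxy

/-- a cofinal subset of `α`, `cf α = ω`, has a cofinal subset of order type `ω` -/
theorem exists_good_subset {α : Ordinal.{u}} (hα : α.cof = ℵ₀) {A : Set Ordinal.{u}}
    (hA : ∀ β < α, ∃ γ ∈ A, β ≤ γ ∧ γ < α) : ∃ S ⊆ A, Good α S := by
  have hl : Order.IsSuccLimit α := by
    rw [← Ordinal.one_lt_cof_iff, hα]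
    exact Cardinal.one_lt_aleph0
  obtain ⟨a, ha1, ha2, ha3⟩ := exists_seq hα
  choose! g hg1 hg2 hg3 using hA
  let s : ℕ → Ordinal.{u} := fun n => Nat.rec (g (a 0)) (fun n x => g (max (a (n + 1)) x + 1)) n
  have hs : ∀ n, s (n + 1) = g (max (a (n + 1)) (s n) + 1) := fun n => rfl
  have h1 : ∀ n, s n < α := by
    intro n
    induction n with
    | zero => exact hg3 _ (ha2 0)
    | succ n ih =>
      rw [hs]
      exact hg3 _ (hl.add_one_lt (max_lt (ha2 _) ih))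
  have h2 : ∀ n, max (a (n + 1)) (s n) + 1 ≤ s (n + 1) := by
    intro n
    rw [hs]
    exact hg2 _ (hl.add_one_lt (max_lt (ha2 _) (h1 n)))
  have h3 : StrictMono s := strictMono_nat_of_lt_succ fun n =>
    ((le_max_right _ _).trans_lt (lt_add_one _)).trans_le (h2 n)
  refine ⟨range s, ?_, good_range h3 h1 ?_⟩
  · rintro _ ⟨n, rfl⟩
    cases n with
    | zero => exact hg1 _ (ha2 0)
    | succ n =>
      rw [hs]
      exact hg1 _ (hl.add_one_lt (max_lt (ha2 _) (h1 n)))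
  · intro β hβ
    obtain ⟨n, hn⟩ := ha3 β hβ
    refine ⟨n + 1, ?_⟩
    have h4 : a n ≤ a (n + 1) := (ha1 (Nat.lt_succ_self n)).le
    exact hn.trans (h4.trans (((le_max_left _ _).trans (lt_add_one _).le).trans (h2 n)))

theorem clubIn_lim {κ : Cardinal.{u}} (hκ : κ.IsRegular) (h0 : ℵ₀ < κ) {B : Set Ordinal.{u}}
    (hB : CofinalIn κ B) : ClubIn κ {γ | γ < κ.ord ∧ IsLim B γ} := by
  have hlim := Cardinal.isSuccLimit_ord hκ.aleph0_le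
  have hex : ∀ β < κ.ord, ∃ γ ∈ B, β < γ := by
    intro β hβ
    obtain ⟨γ, h1, h2⟩ := hB.2 (β + 1) (hlim.add_one_lt hβ)
    exact ⟨γ, h1, (lt_add_one β).trans_le h2⟩
  choose! g hg1 hg2 using hex
  have hcl := clubIn_closure hκ h0 (fun β hβ => hB.1 (hg1 β hβ))
  refine ⟨⟨fun γ h => h.1, fun β hβ => ?_⟩, fun γ hγ hl => ⟨hγ, hl.1, ?_⟩⟩
  · obtain ⟨γ, ⟨h1, h2, h3⟩, h4⟩ := hcl.1.2 β hβ
    refine ⟨γ, ⟨h1, fun h => h2.ne_bot (by simpa using h), fun δ hδ => ?_⟩, h4⟩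
    exact ⟨g δ, hg1 δ (hδ.trans h1), hg2 δ (hδ.trans h1), h3 δ hδ⟩
  · intro β hβ
    obtain ⟨δ, hδ, h1, h2⟩ := hl.2 β hβ
    obtain ⟨ε, h3, h4, h5⟩ := hδ.2.2 β h1
    exact ⟨ε, h3, h4, h5.trans h2⟩

theorem clubIn_inter {κ : Cardinal.{u}} (hκ : κ.IsRegular) (h0 : ℵ₀ < κ) {E E' : Set Ordinal.{u}}
    (hE : ClubIn κ E) (hE' : ClubIn κ E') : ClubIn κ (E ∩ E') := by
  choose! g hg1 hg2 using fun β (hβ : β < κ.ord) => hE.exists_gt hκ hβ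
  choose! g' hg1' hg2' using fun β (hβ : β < κ.ord) => hE'.exists_gt hκ hβ
  have hcl := clubIn_closure hκ h0 (h := fun β => max (g β) (g' β))
    (fun β hβ => max_lt (hE.1.1 (hg1 β hβ)) (hE'.1.1 (hg1' β hβ)))
  refine ⟨⟨fun γ h => hE.1.1 h.1, fun β hβ => ?_⟩, fun γ hγ hl => ⟨hE.2 γ hγ ⟨hl.1, ?_⟩,
    hE'.2 γ hγ ⟨hl.1, ?_⟩⟩⟩
  · obtain ⟨γ, ⟨h1, h2, h3⟩, h4⟩ := hcl.1.2 β hβ
    have h5 : γ ≠ 0 := fun h => h2.ne_bot (by simpa using h)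
    refine ⟨γ, ⟨hE.2 γ h1 ⟨h5, fun δ hδ => ?_⟩, hE'.2 γ h1 ⟨h5, fun δ hδ => ?_⟩⟩, h4⟩
    · exact ⟨g δ, hg1 δ (hδ.trans h1), hg2 δ (hδ.trans h1), (le_max_left _ _).trans_lt (h3 δ hδ)⟩
    · exact ⟨g' δ, hg1' δ (hδ.trans h1), hg2' δ (hδ.trans h1),
        (le_max_right _ _).trans_lt (h3 δ hδ)⟩
  · intro β hβ
    obtain ⟨δ, hδ, h1, h2⟩ := hl.2 β hβ
    exact ⟨δ, hδ.1, h1, h2⟩
  · intro β hβ
    obtain ⟨δ, hδ, h1, h2⟩ := hl.2 β hβ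
    exact ⟨δ, hδ.2, h1, h2⟩

theorem guess_of_diamond {κ : Cardinal.{u}} (hκ : κ.IsRegular) (h0 : ℵ₀ < κ) (h : Diamond κ) :
    Guess κ := by
  classical
  obtain ⟨A, hA⟩ := h
  have hex : ∀ α : Ordinal.{u}, α.cof = ℵ₀ → ∃ S, Good α S ∧
      ((∀ β < α, ∃ γ ∈ A α, β ≤ γ ∧ γ < α) → S ⊆ A α) := by
    intro α hα
    by_cases hc : ∀ β < α, ∃ γ ∈ A α, β ≤ γ ∧ γ < α
    · obtain ⟨S, h1, h2⟩ := exists_good_subset hα hc
      exact ⟨S, h2, fun _ => h1⟩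
    · obtain ⟨s, h3, h4, h5⟩ := exists_seq hα
      exact ⟨range s, good_range h3 h4 h5, fun h => absurd h hc⟩
  choose! N hN1 hN2 using hex
  refine ⟨N, fun α _ hα => hN1 α hα, fun B hB E hE => ?_⟩
  obtain ⟨α, ⟨hα, hαc, hαA⟩, hαE, -, hαB⟩ := hA B hB.1 _ (clubIn_inter hκ h0 hE (clubIn_lim hκ h0 hB))
  refine ⟨α, ⟨hα, hαc, ?_⟩, hαE⟩
  have h1 : N α ⊆ A α := by
    apply hN2 α hαc
    intro β hβ
    obtain ⟨δ, h2, h3, h4⟩ := hαB.2 β hβ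
    refine ⟨δ, ?_, h3.le, h4⟩
    rw [← hαA]
    exact ⟨h2, h4⟩
  have h2 : N α ∩ B = N α := by
    apply inter_eq_left.2
    intro x hx
    have := h1 hx
    rw [← hαA] at this
    exact this.1
  rw [h2]
  exact (hN1 α hαc).2.1

end Pool.Agent.H9.Proxy
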