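import Pool.Agent.H9.Proxy.Refute

open Set Cardinal Ordinal Filter

universe u

namespace Pool.Agent.H9.Proxy

theorem sSup_image_lt {κ : Cardinal.{u}} (hκ : κ.IsRegular) {h : Ordinal.{u} → Ordinal.{u}}
    (hh : ∀ β < κ.ord, h β < κ.ord) {a : Ordinal.{u}} (ha : a < κ.ord) :
    sSup (h '' Iio a) < κ.ord := by
  apply Ordinal.sSup_lt_of_lt_cof
  · refine Cardinal.mk_image_le.trans_lt ?_
    rw [Cardinal.mk_Iio_ordinal, lift_cof_ord hκ, Cardinal.lift_lt]
    exact Cardinal.lt_ord.1 ha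
  · rintro _ ⟨β, hβ, rfl⟩
    exact hh β (lt_trans hβ ha)

/-- closure points of a function form a club -/
theorem clubIn_closure {κ : Cardinal.{u}} (hκ : κ.IsRegular) (h0 : ℵ₀ < κ)
    {h : Ordinal.{u} → Ordinal.{u}} (hh : ∀ β < κ.ord, h β < κ.ord) :
    ClubIn κ {γ | γ < κ.ord ∧ Order.IsSuccLimit γ ∧ ∀ β < γ, h β < γ} := by
  have hlim := Cardinal.isSuccLimit_ord hκ.aleph0_le
  refine ⟨⟨fun γ h => h.1, fun β hβ => ?_⟩, fun γ hγ hl => ⟨hγ, hl.isSuccLimit, ?_⟩⟩
  · let g : Ordinal.{u} → Ordinal.{u} := fun a => max (sSup (h '' Iio a) + 1) (a + 1)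
    have hg : ∀ a < κ.ord, g a < κ.ord := fun a ha =>
      max_lt (hlim.add_one_lt (sSup_image_lt hκ hh ha)) (hlim.add_one_lt ha)
    let s : ℕ → Ordinal.{u} := fun n => Nat.rec β (fun _ x => g x) n
    have hs0 : ∀ n, s n < κ.ord := by
      intro n
      induction n with
      | zero => exact hβ
      | succ n ih => exact hg _ ih
    have hsuc : ∀ n, s (n + 1) = g (s n) := fun n => rfl
    have hs1 : StrictMono s := strictMono_nat_of_lt_succ fun n => by
      rw [hsuc]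
      exact (lt_add_one _).trans_le (le_max_right _ _)
    have hbd : BddAbove (range s) := Ordinal.bddAbove_of_small
    refine ⟨⨆ n, s n, ⟨iSup_nat_lt hκ h0 hs0,
      (isLim_iSup_nat hs1 (E := Set.univ) fun n => mem_univ _).isSuccLimit, ?_⟩, le_ciSup hbd 0⟩
    intro b hb
    obtain ⟨n, hn⟩ := (lt_ciSup_iff' hbd).1 hb
    have h1 : h b ≤ sSup (h '' Iio (s n)) := by
      apply le_csSup _ (mem_image_of_mem h hn)
      apply bdd_of_subset (a := κ.ord)
      rintro _ ⟨x, hx, rfl⟩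
      exact hh x (lt_trans hx (hs0 n))
    have h2 : h b < s (n + 1) := by
      rw [hsuc]
      exact (h1.trans_lt (lt_add_one _)).trans_le (le_max_left _ _)
    exact h2.trans_le (le_ciSup hbd (n + 1))
  · intro β hβ
    obtain ⟨δ, hδ, h1, h2⟩ := hl.2 β hβ
    exact (hδ.2.2 β h1).trans h2

/-- a cofinal family of size `cf z` -/
theorem exists_cofinal_family (z : Ordinal.{u}) : ∃ (ι : Type u) (w : ι → Ordinal.{u}),
    #ι = z.cof ∧ (∀ i, w i < z) ∧ ∀ β < z, ∃ i, β ≤ w i := by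
  obtain ⟨s, hs, hc⟩ := Order.exists_cof_eq (α := z.ToType)
  refine ⟨s, fun t => ((Ordinal.ToType.mk (o := z)).symm t : Ordinal), ?_, fun i => ?_, ?_⟩
  · rw [hc, Ordinal.cof_toType]
  · exact ((Ordinal.ToType.mk (o := z)).symm i).2
  · intro β hβ
    obtain ⟨t, ht, hle⟩ := hs (Ordinal.ToType.mk ⟨β, hβ⟩)
    refine ⟨⟨t, ht⟩, ?_⟩
    have := (Ordinal.ToType.mk (o := z)).symm.monotone hle
    rw [OrderIso.symm_apply_apply] at this
    exact this

/-- The data on a filter from which reflection follows: a function `f` which is unbounded in `κ`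
modulo the filter and such that `min (c_{f x} \ (β+1))` is bounded for each `β`. -/
structure Data (κ σ : Cardinal.{u}) (c : Ordinal.{u} → Set Ordinal.{u}) {X : Type u}
    (F : Filter X) (f : X → Ordinal.{u}) : Prop where
  ne : F.NeBot
  comp : CardinalInterFilter F σ
  lt : ∀ x, f x < κ.ord
  unb : ∀ β < κ.ord, ∀ᶠ x in F, β < f x
  lim : ∀ᶠ x in F, Order.IsSuccLimit (f x)
  next : ∀ β < κ.ord, ∃ β' < κ.ord, ∀ᶠ x in F, sInf {δ | δ ∈ c (f x) ∧ β < δ} ≤ β'

theorem reflects_of_data {κ χ σ : Cardinal.{u}} (hκ : κ.IsRegular) (h0 : ℵ₀ < κ) (hχ0 : ℵ₀ ≤ χ)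
    (hχσ : χ < σ)
    (H : ∀ c : Ordinal.{u} → Set Ordinal.{u},
      (∀ α < κ.ord, Order.IsSuccLimit α → InK κ (c α) ∧ sSup (c α) = α) →
      ∃ (X : Type u) (F : Filter X) (f : X → Ordinal.{u}), Data κ σ c F f) :
    Reflects κ χ := by
  intro c hc
  obtain ⟨X, F, f, hd⟩ := H c hc
  have := hd.ne
  have := hd.comp
  choose! h hh1 hh2 using hd.next
  refine ⟨_, clubIn_closure hκ h0 hh1, ?_⟩
  intro ι z hι hz
  have key : ∀ i, ∀ᶠ x in F, z i ∈ acc (c (f x)) := by
    intro i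
    obtain ⟨⟨hzκ, hzl, hzh⟩, hzc⟩ := hz i
    obtain ⟨J, w, hJ, hw1, hw2⟩ := exists_cofinal_family (z i)
    have hJσ : #J < σ := by
      rw [hJ]
      rcases hzc with h | h
      · rw [h]; exact hχ0.trans_lt hχσ
      · rw [h]; exact hχσ
    have h1 : ∀ᶠ x in F, ∀ j, sInf {δ | δ ∈ c (f x) ∧ w j < δ} ≤ h (w j) := by
      rw [Filter.eventually_cardinal_forall hJσ]
      intro j
      exact hh2 _ ((hw1 j).trans hzκ)
    filter_upwards [h1, hd.lim, hd.unb _ hzκ] with x h1 h2 h3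
    obtain ⟨hK, hs⟩ := hc (f x) (hd.lt x) h2
    refine ⟨by rwa [hs], ?_, fun β hβ => ?_⟩
    · exact fun h => hzl.ne_bot (by simpa using h)
    · obtain ⟨j, hj⟩ := hw2 β hβ
      have h4 : {δ | δ ∈ c (f x) ∧ w j < δ}.Nonempty := by
        obtain ⟨δ, hδ, h5, -⟩ := hK.exists_gt (β := w j) (by
          rw [hs]
          exact (hw1 j).trans h3)
        exact ⟨δ, hδ, h5⟩
      have h5 := csInf_mem h4
      exact ⟨_, h5.1, hj.trans_lt h5.2, (h1 j).trans_lt (hzh _ (hw1 j))⟩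
  have h1 : ∀ᶠ x in F, ∀ i, z i ∈ acc (c (f x)) := by
    rw [Filter.eventually_cardinal_forall (hι.trans_lt hχσ)]
    exact key
  obtain ⟨x, hx1, hx2⟩ := (h1.and hd.lim).exists
  exact ⟨f x, hd.lt x, hx2, hx1⟩

/-! ### Complete uniform ultrafilters -/

/-- minimal unbounded function modulo a countably complete ultrafilter -/
theorem exists_minimal {κ : Cardinal.{u}} {X : Type u} (U : Ultrafilter X)
    [CountableInterFilter (U : Filter X)] (f₀ : X → Ordinal.{u}) (h1 : ∀ x, f₀ x < κ.ord)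
    (h2 : ∀ β < κ.ord, ∀ᶠ x in (U : Filter X), β < f₀ x) :
    ∃ f : X → Ordinal.{u}, (∀ x, f x < κ.ord) ∧ (∀ β < κ.ord, ∀ᶠ x in (U : Filter X), β < f x) ∧
      ∀ g : X → Ordinal.{u}, (∀ᶠ x in (U : Filter X), g x < f x) →
        ∃ β < κ.ord, ∀ᶠ x in (U : Filter X), g x ≤ β := by
  let r : (X → Ordinal.{u}) → (X → Ordinal.{u}) → Prop := fun g f => ∀ᶠ x in (U : Filter X), g x < f x
  have hwf : WellFounded r := by
    rw [wellFounded_iff_isEmpty_descending_chain]
    refine ⟨fun ⟨s, hs⟩ => ?_⟩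
    have h3 : ∀ᶠ x in (U : Filter X), ∀ n, s (n + 1) x < s n x := by
      rw [eventually_countable_forall]
      exact hs
    obtain ⟨x, hx⟩ := h3.exists
    have : WellFounded ((· < ·) : Ordinal.{u} → Ordinal.{u} → Prop) := Ordinal.lt_wf
    rw [wellFounded_iff_isEmpty_descending_chain] at this
    exact this.false ⟨fun n => s n x, hx⟩
  let S : Set (X → Ordinal.{u}) :=
    {f | (∀ x, f x < κ.ord) ∧ ∀ β < κ.ord, ∀ᶠ x in (U : Filter X), β < f x}
  have hS : S.Nonempty := ⟨f₀, h1, h2⟩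
  obtain ⟨hf1, hf2⟩ := hwf.min_mem S hS
  set f := hwf.min S hS with hf
  refine ⟨f, hf1, hf2, fun g hg => ?_⟩
  by_contra hcon
  push Not at hcon
  classical
  let g' : X → Ordinal.{u} := fun x => min (g x) (f x)
  have hg' : g' ∈ S := by
    refine ⟨fun x => (min_le_right _ _).trans_lt (hf1 x), fun β hβ => ?_⟩
    have h3 := hcon β hβ
    filter_upwards [h3, hf2 β hβ] with x h5 h6
    exact lt_min h5 h6
  have h5 : r g' f := by
    filter_upwards [hg] with x hx
    exact (min_le_left _ _).trans_lt hx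
  exact hwf.not_lt_min S hg' h5

end Pool.Agent.H9.Proxy
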