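import Pool.Agent.H9.Proxy.Positive
import Pool.Agent.H9.Proxy.Reflect

open Set Cardinal Ordinal

universe u

namespace Pool.Agent.H9.Proxy

/-- cofinal subsets of `α` of order type `ω` -/
def Good (α : Ordinal.{u}) (S : Set Ordinal.{u}) : Prop :=
  S ⊆ Iio α ∧ sSup S = α ∧ ∀ γ < α, ¬ IsLim S γ

theorem good_range {α : Ordinal.{u}} {s : ℕ → Ordinal.{u}} (hs : StrictMono s)
    (h1 : ∀ n, s n < α) (h2 : ∀ β < α, ∃ n, β ≤ s n) : Good α (range s) := by
  refine ⟨?_, ?_, ?_⟩
  · rintro _ ⟨n, rfl⟩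
    exact h1 n
  · apply le_antisymm
    · apply csSup_le'
      rintro _ ⟨n, rfl⟩
      exact (h1 n).le
    · by_contra hcon
      push Not at hcon
      obtain ⟨n, hn⟩ := h2 _ hcon
      have h3 : s (n + 1) ≤ sSup (range s) := le_csSup Ordinal.bddAbove_of_small ⟨n + 1, rfl⟩
      exact absurd (hn.trans_lt (hs (Nat.lt_succ_self n))) (not_lt.2 h3)
  · intro γ hγ hl
    have hex := h2 γ hγ
    classical
    have hfind := Nat.find_spec hex
    rcases h : Nat.find hex with _ | m
    · rw [h] at hfind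
      obtain ⟨δ, ⟨k, rfl⟩, -, h4⟩ := hl.2 0 (pos_iff_ne_zero.2 hl.1)
      exact absurd (h4.trans_le hfind) (not_lt.2 (hs.monotone (Nat.zero_le k)))
    · rw [h] at hfind
      have hm : s m < γ := by
        have := Nat.find_min hex (m := m) (by omega)
        exact not_le.1 this
      obtain ⟨δ, ⟨k, rfl⟩, h3, h4⟩ := hl.2 _ hm
      have h5 : m < k := hs.lt_iff_lt.1 h3
      have h6 : k < m + 1 := hs.lt_iff_lt.1 (h4.trans_le hfind)
      omega

theorem exists_seq {α : Ordinal.{u}} (hα : α.cof = ℵ₀) :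
    ∃ s : ℕ → Ordinal.{u}, StrictMono s ∧ (∀ n, s n < α) ∧ ∀ β < α, ∃ n, β ≤ s n := by
  have hl : Order.IsSuccLimit α := by
    rw [← Ordinal.one_lt_cof_iff, hα]
    exact Cardinal.one_lt_aleph0
  obtain ⟨ι, w, hι, hw1, hw2⟩ := exists_cofinal_family α
  rw [hα] at hι
  obtain ⟨hd⟩ := Cardinal.denumerable_iff.2 hι
  let e : ℕ → ι := (Denumerable.eqv ι).symm
  have he : Function.Surjective e := (Denumerable.eqv ι).symm.surjective
  let s : ℕ → Ordinal.{u} := fun n => Nat.rec 0 (fun n x => max x (w (e n)) + 1) n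
  have hsuc : ∀ n, s (n + 1) = max (s n) (w (e n)) + 1 := fun n => rfl
  have h1 : ∀ n, s n < α := by
    intro n
    induction n with
    | zero => exact pos_iff_ne_zero.2 (fun h => hl.ne_bot (by simpa using h))
    | succ n ih =>
      rw [hsuc]
      exact hl.add_one_lt (max_lt ih (hw1 _))
  refine ⟨s, strictMono_nat_of_lt_succ fun n => ?_, h1, fun β hβ => ?_⟩
  · rw [hsuc]
    exact (le_max_left _ _).trans_lt (lt_add_one _)
  · obtain ⟨i, hi⟩ := hw2 β hβ
    obtain ⟨n, rfl⟩ := he i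
    refine ⟨n + 1, ?_⟩
    rw [hsuc]
    exact hi.trans ((le_max_right _ _).trans (lt_add_one _).le)

/-- Gregory's argument: `λ^ω = λ` and `κ^λ = κ` for `κ = λ⁺` give the guessing principle at
`S^κ_ω`. -/
theorem guess_of_arith {lam κ : Cardinal.{u}} (hlam : ℵ₀ ≤ lam) (hκ : κ = Order.succ lam)
    (h1 : lam ^ ℵ₀ ≤ lam) (h2 : κ ^ lam ≤ κ) : Guess κ := by
  classical
  have hκr : κ.IsRegular := by
    rw [hκ]
    exact Cardinal.isRegular_succ hlam
  have hlt : lam < κ := by
    rw [hκ]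
    exact Order.lt_succ lam
  have h0κ : ℵ₀ < κ := hlam.trans_lt hlt
  have hlim := Cardinal.isSuccLimit_ord hκr.aleph0_le
  let L := lam.ord.ToType
  have hL : #L = lam := by simp [L]
  let K := κ.ord.ToType
  have hK : #K = κ := by simp [K]
  let o : K → Ordinal.{u} := fun a => ((Ordinal.ToType.mk (o := κ.ord)).symm a : Ordinal)
  have hoκ : ∀ a, o a < κ.ord := fun a => ((Ordinal.ToType.mk (o := κ.ord)).symm a).2
  have homk : ∀ β (h : β < κ.ord), o (Ordinal.ToType.mk ⟨β, h⟩) = β := by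
    intro β h
    simp only [o, OrderIso.symm_apply_apply]
  have hmko : ∀ a (h : o a < κ.ord), (Ordinal.ToType.mk ⟨o a, h⟩ : K) = a := by
    intro a h
    exact (Ordinal.ToType.mk (o := κ.ord)).apply_symm_apply a
  -- coding of `lam`-sequences
  have hcode : ∃ D : Ordinal.{u} → L → Ordinal.{u}, ∀ s : L → Ordinal.{u}, (∀ j, s j < κ.ord) →
      ∀ β < κ.ord, ∃ γ, β < γ ∧ γ < κ.ord ∧ ∀ j, D γ j = s j := by
    have h3 : #K = #(K × (L → K)) := by
      rw [Cardinal.mk_prod, Cardinal.lift_id, Cardinal.lift_id, ← Cardinal.power_def, hK, hL]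
      apply le_antisymm
      · calc κ = κ * 1 := (mul_one κ).symm
          _ ≤ κ * κ ^ lam := by
            apply mul_le_mul_right
            exact Cardinal.one_le_iff_ne_zero.2 (Cardinal.power_ne_zero _ hκr.ne_zero)
      · calc κ * κ ^ lam ≤ κ * κ := mul_le_mul_right h2 κ
          _ = κ := Cardinal.mul_eq_self hκr.aleph0_le
    obtain ⟨φ⟩ := Cardinal.eq.1 h3
    refine ⟨fun β j => if h : β < κ.ord then o ((φ (Ordinal.ToType.mk ⟨β, h⟩)).2 j) else 0, ?_⟩
    intro s hs β hβ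
    let s' : L → K := fun j => Ordinal.ToType.mk ⟨s j, hs j⟩
    by_contra hcon
    push Not at hcon
    have h4 : ∀ a : K, o (φ.symm (a, s')) ≤ β := by
      intro a
      by_contra hlt
      push Not at hlt
      obtain ⟨j, hj⟩ := hcon _ hlt (hoκ _)
      apply hj
      rw [dif_pos (hoκ _), hmko, Equiv.apply_symm_apply]
      exact homk _ _
    have hβ1 : β + 1 < κ.ord := hlim.add_one_lt hβ
    let t : K := Ordinal.ToType.mk ⟨β + 1, hβ1⟩
    have h5 : #(Iio t) < κ := by
      have := Cardinal.mk_Iio_lt t (by simp [K])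
      rwa [hK] at this
    have h6 : #K ≤ #(Iio t) := by
      refine Cardinal.mk_le_of_injective (f := fun a : K => (⟨φ.symm (a, s'), ?_⟩ : Iio t)) ?_
      · have h7 : (Ordinal.ToType.mk (o := κ.ord)).symm (φ.symm (a, s')) < ⟨β + 1, hβ1⟩ := by
          show o (φ.symm (a, s')) < β + 1
          exact (h4 a).trans_lt (lt_add_one _)
        have h8 := (Ordinal.ToType.mk (o := κ.ord)).strictMono h7
        rw [OrderIso.apply_symm_apply] at h8
        exact h8
      · intro a a' haa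
        exact (Prod.mk.inj (φ.symm.injective (congrArg Subtype.val haa))).1
    rw [hK] at h6
    exact absurd h6 (not_le.2 h5)
  obtain ⟨D, hD⟩ := hcode
  -- enumeration of the `ω`-sequences in `α`
  have henum : ∀ α : Ordinal.{u}, α < κ.ord → α ≠ 0 → ∃ T : L → ℕ → Ordinal.{u},
      ∀ t : ℕ → Ordinal.{u}, (∀ n, t n < α) → ∃ j, T j = t := by
    intro α hα hα0
    have h3 : #(ℕ → α.ToType) ≤ #L := by
      have h4 : α.card ≤ lam := by
        have := Cardinal.lt_ord.1 hα
        rw [hκ] at this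
        exact Order.lt_succ_iff.1 this
      calc #(ℕ → α.ToType) = α.card ^ (ℵ₀ : Cardinal.{u}) := by simp
        _ ≤ lam ^ (ℵ₀ : Cardinal.{u}) := Cardinal.power_le_power_right h4
        _ ≤ lam := h1
        _ = #L := hL.symm
    have hne : Nonempty α.ToType := Ordinal.nonempty_toType_iff.2 hα0
    obtain ⟨g⟩ := Cardinal.le_def _ _ |>.1 h3
    have hsurj : Function.Surjective (Function.invFun g) :=
      Function.invFun_surjective g.injective
    refine ⟨fun j n => ((Ordinal.ToType.mk (o := α)).symm (Function.invFun g j n) : Ordinal), ?_⟩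
    intro t ht
    obtain ⟨j, hj⟩ := hsurj (fun n => Ordinal.ToType.mk ⟨t n, ht n⟩)
    refine ⟨j, ?_⟩
    funext n
    show ((Ordinal.ToType.mk (o := α)).symm (Function.invFun g j n) : Ordinal) = t n
    rw [hj, OrderIso.symm_apply_apply]
  choose! T hT using henum
  -- default ladders
  have hdef : ∀ α : Ordinal.{u}, α.cof = ℵ₀ → ∃ S : Set Ordinal.{u}, Good α S := by
    intro α hα
    obtain ⟨s, h3, h4, h5⟩ := exists_seq hα
    exact ⟨range s, good_range h3 h4 h5⟩
  choose! S hS using hdef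
  let R : L → Ordinal.{u} → Set Ordinal.{u} := fun j α => range fun n => D (T α j n) j
  let N : L → Ordinal.{u} → Set Ordinal.{u} := fun j α => if Good α (R j α) then R j α else S α
  have hN : ∀ j α, α.cof = ℵ₀ → Good α (N j α) := by
    intro j α hα
    by_cases h : Good α (R j α)
    · simp only [N, if_pos h]
      exact h
    · simp only [N, if_neg h]
      exact hS α hα
  by_contra hcon
  have hbad : ∀ j : L, ∃ B, CofinalIn κ B ∧ ∃ E, ClubIn κ E ∧
      ∀ α ∈ E, α < κ.ord → α.cof = ℵ₀ → sSup (N j α ∩ B) ≠ α := by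
    intro j
    by_contra h3
    push Not at h3
    apply hcon
    refine ⟨N j, fun α _ hα => hN j α hα, fun B hB E hE => ?_⟩
    obtain ⟨α, h4, h5, h6, h7⟩ := h3 B hB E hE
    exact ⟨α, ⟨h5, h6, h7⟩, h4⟩
  choose B hB E hE hEB using hbad
  have hs : ∀ β < κ.ord, ∀ j : L, ∃ γ ∈ B j, β < γ := by
    intro β hβ j
    obtain ⟨γ, h3, h4⟩ := (hB j).2 (β + 1) (hlim.add_one_lt hβ)
    exact ⟨γ, h3, (lt_add_one β).trans_le h4⟩
  choose! s hs1 hs2 using hs
  have hnx : ∀ β < κ.ord, ∀ j : L, ∃ γ ∈ E j, β < γ := fun β hβ j => (hE j).exists_gt hκr hβ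
  choose! nx hnx1 hnx2 using hnx
  have hcd : ∀ β < κ.ord, ∃ γ, β < γ ∧ γ < κ.ord ∧ ∀ j, D γ j = s β j :=
    fun β hβ => hD _ (fun j => (hB j).1 (hs1 β hβ j)) β hβ
  choose! cd hcd1 hcd2 hcd3 using hcd
  let h : Ordinal.{u} → Ordinal.{u} := fun β => max (cd β) (⨆ j, max (s β j) (nx β j))
  have hh : ∀ β < κ.ord, h β < κ.ord := by
    intro β hβ
    refine max_lt (hcd2 β hβ) ?_
    apply Ordinal.iSup_lt_of_lt_cof
    · rw [hκr.cof_ord, hL]
      exact hlt
    · exact fun j => max_lt ((hB j).1 (hs1 β hβ j)) ((hE j).1.1 (hnx1 β hβ j))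
  have hle : ∀ β j, max (s β j) (nx β j) ≤ h β := by
    intro β j
    refine le_trans ?_ (le_max_right _ _)
    exact le_ciSup (f := fun j => max (s β j) (nx β j)) Ordinal.bddAbove_of_small j
  have hclub := clubIn_closure hκr h0κ hh
  obtain ⟨α, ⟨hα, hαl, hαh⟩, -, hαc⟩ := hclub.exists_cof_omega hκr h0κ hκr.ord_pos
  have hα0 : α ≠ 0 := fun h => hαl.ne_bot (by simpa using h)
  have hαE : ∀ j, α ∈ E j := by
    intro j
    refine (hE j).2 α hα ⟨hα0, fun β hβ => ?_⟩
    have hβκ := hβ.trans hα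
    exact ⟨nx β j, hnx1 β hβκ j, hnx2 β hβκ j,
      ((le_max_right _ _).trans (hle β j)).trans_lt (hαh β hβ)⟩
  obtain ⟨a, ha1, ha2, ha3⟩ := exists_seq hαc
  let ε : ℕ → Ordinal.{u} := fun n => Nat.rec (a 0) (fun n x => max (a (n + 1)) (h x) + 1) n
  have hεs : ∀ n, ε (n + 1) = max (a (n + 1)) (h (ε n)) + 1 := fun n => rfl
  have hε1 : ∀ n, ε n < α := by
    intro n
    induction n with
    | zero => exact ha2 0
    | succ n ih =>
      rw [hεs]
      exact hαl.add_one_lt (max_lt (ha2 _) (hαh _ ih))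
  have hε2 : ∀ n, a n ≤ ε n := by
    intro n
    cases n with
    | zero => exact le_rfl
    | succ n =>
      rw [hεs]
      exact (le_max_left _ _).trans (lt_add_one _).le
  have hεκ : ∀ n, ε n < κ.ord := fun n => (hε1 n).trans hα
  obtain ⟨j, hj⟩ := hT α hα hα0 (fun n => cd (ε n))
    (fun n => (le_max_left _ _).trans_lt (hαh _ (hε1 n)))
  let v : ℕ → Ordinal.{u} := fun n => s (ε n) j
  have hvh : ∀ n, v n ≤ h (ε n) := fun n => (le_max_left _ _).trans (hle (ε n) j)
  have hv1 : StrictMono v := by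
    refine strictMono_nat_of_lt_succ fun n => ?_
    have h3 : h (ε n) < ε (n + 1) := by
      rw [hεs]
      exact (le_max_right _ _).trans_lt (lt_add_one _)
    exact (hvh n).trans_lt (h3.trans (hs2 _ (hεκ (n + 1)) j))
  have hv2 : ∀ n, v n < α := fun n => (hvh n).trans_lt (hαh _ (hε1 n))
  have hv3 : ∀ β < α, ∃ n, β ≤ v n := by
    intro β hβ
    obtain ⟨n, hn⟩ := ha3 β hβ
    exact ⟨n, hn.trans ((hε2 n).trans (hs2 _ (hεκ _) j).le)⟩
  have hR : R j α = range v := by
    show (range fun n => D (T α j n) j) = range v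
    congr 1
    funext n
    rw [hj]
    exact hcd3 _ (hεκ n) j
  have hgood : Good α (R j α) := by
    rw [hR]
    exact good_range hv1 hv2 hv3
  have hNj : N j α = range v := by
    simp only [N, if_pos hgood]
    exact hR
  apply hEB j α (hαE j) hα hαc
  rw [hNj]
  have hsub : range v ∩ B j = range v := by
    apply inter_eq_left.2
    rintro _ ⟨n, rfl⟩
    exact hs1 _ (hεκ n) j
  rw [hsub]
  exact (good_range hv1 hv2 hv3).2.1

end Pool.Agent.H9.Proxy
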