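import Pool.Agent.H9.Proxy.Basic

open Set Cardinal Ordinal

universe u

namespace Pool.Agent.H9.Proxy

/-- A (weak) club guessing principle for `S^κ_ω`: there is a system of cofinal sets `N_α ⊆ α` of
order type `ω` (no limit points below `α`), for the `α < κ` of cofinality `ω`, such that every
cofinal `B ⊆ κ` has `sup (N_α ∩ B) = α` for stationarily many `α`. -/
def Guess (κ : Cardinal.{u}) : Prop :=
  ∃ N : Ordinal.{u} → Set Ordinal.{u},
    (∀ α < κ.ord, α.cof = ℵ₀ → N α ⊆ Iio α ∧ sSup (N α) = α ∧ ∀ γ < α, ¬ IsLim (N α) γ) ∧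
    ∀ B, CofinalIn κ B → StatIn κ {α | α < κ.ord ∧ α.cof = ℵ₀ ∧ sSup (N α ∩ B) = α}

theorem pMinus_one {κ χ : Cardinal.{u}} (h0 : ℵ₀ < χ) (hG : Guess κ) :
    PMinus κ 2 (OmegaRel ∅ (LeftRel χ Sq)) 1 2 := by
  classical
  obtain ⟨N, hN, hNB⟩ := hG
  let c : Ordinal.{u} → Set Ordinal.{u} := fun α => if α.cof = ℵ₀ then N α else Iio α
  have hc1 : ∀ α < κ.ord, Order.IsSuccLimit α → InK κ (c α) ∧ sSup (c α) = α := by
    intro α hα hl
    have hα0 : α ≠ 0 := by
      rintro rfl
      exact hl.ne_bot (by simp)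
    by_cases h : α.cof = ℵ₀
    · obtain ⟨h1, h2, h3⟩ := hN α hα h
      have hc : c α = N α := if_pos h
      rw [hc]
      refine ⟨⟨?_, fun x hx => (h1 hx).trans hα, ?_, ?_⟩, h2⟩
      · by_contra hemp
        rw [not_nonempty_iff_eq_empty.1 hemp] at h2
        exact hα0 (by simpa using h2.symm)
      · rw [h2]
        exact fun h4 => lt_irrefl α (mem_Iio.1 (h1 h4))
      · rintro γ ⟨h4, h5⟩
        rw [h2] at h4
        exact absurd h5 (h3 γ h4)
    · have hc : c α = Iio α := if_neg h
      rw [hc]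
      have hs := sSup_Iio_of_limit hl
      refine ⟨⟨⟨0, pos_iff_ne_zero.2 hα0⟩, fun x hx => lt_trans hx hα, ?_, ?_⟩, hs⟩
      · rw [hs]
        exact fun h4 => lt_irrefl α (mem_Iio.1 h4)
      · rintro γ ⟨h4, -⟩
        rwa [hs] at h4
  refine ⟨fun α => {c α}, ?_, ?_⟩
  · intro α hα hl
    refine ⟨?_, singleton_nonempty _, ?_, ?_⟩
    · rintro C rfl
      exact hc1 α hα hl
    · rw [Cardinal.mk_singleton, Cardinal.lift_ofNat]
      exact Cardinal.one_lt_two
    · rintro C rfl γ ⟨hγ, hγl⟩
      obtain ⟨hK, hs⟩ := hc1 α hα hl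
      rw [hs] at hγ
      obtain ⟨hKγ, hsγ⟩ := hc1 γ (hγ.trans hα) hγl.isSuccLimit
      refine ⟨c γ, rfl, ?_, notMem_empty _⟩
      by_cases hγc : γ.cof = ℵ₀
      · right
        rw [hsγ, hγc]
        exact h0
      · left
        by_cases h : α.cof = ℵ₀
        · exfalso
          have hc : c α = N α := if_pos h
          rw [hc] at hγl
          exact (hN α hα h).2.2 γ hγ hγl
        · unfold Sq
          rw [hsγ]
          have hcα : c α = Iio α := if_neg h
          have hcγ : c γ = Iio γ := if_neg hγc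
          rw [hcα, hcγ]
          ext x
          constructor
          · intro hx
            exact ⟨lt_trans hx hγ, hx⟩
          · rintro ⟨-, hx⟩
            exact hx
  · intro B hB
    have hB0 : CofinalIn κ (B 0) := hB 0 (by simp)
    intro E hE
    obtain ⟨α, ⟨hα, hαc, hαB⟩, hαE⟩ := hNB (B 0) hB0 E hE
    have hl : Order.IsSuccLimit α := by
      rw [← Ordinal.one_lt_cof_iff, hαc]
      exact Cardinal.one_lt_aleph0
    refine ⟨α, ⟨hα, ?_, ?_⟩, hαE⟩
    · rw [Cardinal.mk_singleton, Cardinal.lift_ofNat]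
      exact Cardinal.one_lt_two
    · rintro C rfl i hi
      have hi0 : i = 0 := by
        have := lt_of_lt_of_le hi (min_le_right _ _)
        simpa using this
      subst hi0
      have hc : c α = N α := if_pos hαc
      rw [hc]
      have hn : nacc (N α) = N α := by
        apply subset_antisymm
        · exact fun x hx => hx.1
        · intro x hx
          refine ⟨hx, fun h => ?_⟩
          exact (hN α hα hαc).2.2 x ((hN α hα hαc).1 hx) h.2
      rw [hn]
      exact hαB

end Pool.Agent.H9.Proxy
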