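import Pool.Agent.H9.Proxy.Basic

open Set Cardinal Ordinal

universe u

namespace Pool.Agent.H9.Proxy

theorem ClubIn.exists_gt {κ : Cardinal.{u}} (hκ : κ.IsRegular) {E : Set Ordinal.{u}}
    (hE : ClubIn κ E) {β : Ordinal.{u}} (hβ : β < κ.ord) : ∃ γ ∈ E, β < γ := by
  obtain ⟨γ, hγ, h⟩ := hE.1.2 (β + 1) ((Cardinal.isSuccLimit_ord hκ.aleph0_le).add_one_lt hβ)
  exact ⟨γ, hγ, (lt_add_one β).trans_le h⟩

theorem iSup_nat_lt {κ : Cardinal.{u}} (hκ : κ.IsRegular) (h0 : ℵ₀ < κ) {s : ℕ → Ordinal.{u}}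
    (hs : ∀ n, s n < κ.ord) : ⨆ n, s n < κ.ord := by
  apply Ordinal.lift_iSup_lt_of_lt_cof
  · simp only [Cardinal.mk_nat, Cardinal.lift_aleph0]
    rw [← Ordinal.lift_cof, hκ.cof_ord]
    simpa using h0
  · exact hs

theorem cof_iSup_nat {s : ℕ → Ordinal.{u}} (hs : StrictMono s) : (⨆ n, s n).cof = ℵ₀ := by
  have h := Ordinal.lift_cof_iSup hs
  rw [Order.cof_nat] at h
  simpa using h

theorem isLim_iSup_nat {s : ℕ → Ordinal.{u}} (hs : StrictMono s) {E : Set Ordinal.{u}}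
    (hE : ∀ n, s n ∈ E) : IsLim E (⨆ n, s n) := by
  have hlt : ∀ n, s n < ⨆ n, s n := fun n =>
    (hs (Nat.lt_succ_self n)).trans_le (le_ciSup Ordinal.bddAbove_of_small (n + 1))
  refine ⟨?_, fun β hβ => ?_⟩
  · exact (lt_of_le_of_lt (bot_le : (0 : Ordinal) ≤ s 0) (hlt 0)).ne'
  · obtain ⟨n, hn⟩ := (lt_ciSup_iff' Ordinal.bddAbove_of_small).1 hβ
    exact ⟨s n, hE n, hn, hlt n⟩

theorem ClubIn.exists_cof_omega {κ : Cardinal.{u}} (hκ : κ.IsRegular) (h0 : ℵ₀ < κ)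
    {E : Set Ordinal.{u}} (hE : ClubIn κ E) {β : Ordinal.{u}} (hβ : β < κ.ord) :
    ∃ γ ∈ E, β ≤ γ ∧ γ.cof = ℵ₀ := by
  choose! f hf using fun β (hβ : β < κ.ord) => hE.exists_gt hκ hβ
  have hfl : ∀ β < κ.ord, f β < κ.ord := fun β hβ => hE.1.1 (hf β hβ).1
  let s : ℕ → Ordinal.{u} := fun n => Nat.rec (f β) (fun _ x => f x) n
  have hs0 : ∀ n, s n < κ.ord ∧ s n ∈ E := by
    intro n
    induction n with
    | zero => exact ⟨hfl β hβ, (hf β hβ).1⟩
    | succ n ih => exact ⟨hfl _ ih.1, (hf _ ih.1).1⟩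
  have hs1 : StrictMono s := strictMono_nat_of_lt_succ fun n => (hf _ (hs0 n).1).2
  refine ⟨⨆ n, s n, ?_, ?_, cof_iSup_nat hs1⟩
  · exact hE.2 _ (iSup_nat_lt hκ h0 fun n => (hs0 n).1) (isLim_iSup_nat hs1 fun n => (hs0 n).2)
  · exact (hf β hβ).2.le.trans (le_ciSup Ordinal.bddAbove_of_small 0)

/-- The reflection property behind the refutations: for every choice of clubs `c_α ⊆ α` there is
a club `E` such that all families of at most `χ` points of `E` of cofinality `ω` or `χ`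
consist of limit points of a single `c_δ`. -/
def Reflects (κ χ : Cardinal.{u}) : Prop :=
  ∀ c : Ordinal.{u} → Set Ordinal.{u},
    (∀ α < κ.ord, Order.IsSuccLimit α → InK κ (c α) ∧ sSup (c α) = α) →
    ∃ E, ClubIn κ E ∧ ∀ (ι : Type u) (z : ι → Ordinal.{u}), #ι ≤ χ →
      (∀ i, z i ∈ E ∧ ((z i).cof = ℵ₀ ∨ (z i).cof = χ)) →
      ∃ δ < κ.ord, Order.IsSuccLimit δ ∧ ∀ i, z i ∈ acc (c δ)

theorem eq_of_mk_lt_two {α : Type (u + 1)} {s : Set α} (h : #s < Cardinal.lift.{u + 1} (2 : Cardinal.{u}))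
    {x y : α} (hx : x ∈ s) (hy : y ∈ s) : x = y := by
  have h1 : #s ≤ 1 := by
    have h2 : Cardinal.lift.{u + 1} (2 : Cardinal.{u}) = Order.succ (1 : Cardinal.{u + 1}) := by
      rw [Cardinal.lift_ofNat]
      have := Cardinal.succ_natCast 1
      simpa [one_add_one_eq_two] using this.symm
    rw [h2] at h
    exact Order.lt_succ_iff.1 h
  exact Cardinal.mk_le_one_iff_set_subsingleton.1 h1 hx hy

theorem clubIn_tail {κ : Cardinal.{u}} (hκ : κ.IsRegular) (h0 : ℵ₀ < κ) {a : Ordinal.{u}}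
    (ha : a < κ.ord) : ClubIn κ {α | α < κ.ord ∧ a ≤ α ∧ Order.IsSuccLimit α} := by
  refine ⟨⟨fun α h => h.1, fun β hβ => ?_⟩, fun γ hγ hl => ⟨hγ, ?_, hl.isSuccLimit⟩⟩
  · let s : ℕ → Ordinal.{u} := fun n => max a β + n
    have hlim := Cardinal.isSuccLimit_ord hκ.aleph0_le
    have hs0 : ∀ n, s n < κ.ord := by
      intro n
      induction n with
      | zero => simpa [s] using ⟨ha, hβ⟩
      | succ n ih =>
        have := hlim.add_one_lt ih
        simpa [s, add_assoc] using this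
    have hs1 : StrictMono s := strictMono_nat_of_lt_succ fun n => by simp [s]
    have hle : s 0 ≤ ⨆ n, s n := le_ciSup Ordinal.bddAbove_of_small 0
    refine ⟨⨆ n, s n, ⟨iSup_nat_lt hκ h0 hs0, ?_, ?_⟩, ?_⟩
    · exact (le_max_left a β).trans (by simpa [s] using hle)
    · exact (isLim_iSup_nat hs1 (E := Set.univ) fun n => mem_univ _).isSuccLimit
    · exact (le_max_right a β).trans (by simpa [s] using hle)
  · obtain ⟨δ, hδ, h1, h2⟩ := hl.2 0 (pos_iff_ne_zero.2 hl.1)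
    exact hδ.2.1.trans h2.le

theorem not_pMinus {κ χ : Cardinal.{u}} (hκ : κ.IsRegular) (hχ : χ.IsRegular) (h0 : ℵ₀ < χ)
    (hχκ : χ < κ) (hr : Reflects κ χ) {θ ν : Cardinal.{u}} (hθ : χ ≤ θ) :
    ¬ PMinus κ 2 (LeftRel χ SqStar) θ ν := by
  classical
  rintro ⟨𝒞, hseq, hguess⟩
  have h0κ : ℵ₀ < κ := h0.trans hχκ
  -- the unique member of `𝒞 α`
  let c : Ordinal.{u} → Set Ordinal.{u} := fun α => if h : (𝒞 α).Nonempty then h.some else ∅
  have hcm : ∀ α < κ.ord, Order.IsSuccLimit α → c α ∈ 𝒞 α := by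
    intro α hα hl
    have h := (hseq α hα hl).2.1
    simp only [c, dif_pos h]
    exact h.some_mem
  have hcu : ∀ α < κ.ord, Order.IsSuccLimit α → ∀ C ∈ 𝒞 α, C = c α := by
    intro α hα hl C hC
    exact eq_of_mk_lt_two (hseq α hα hl).2.2.1 hC (hcm α hα hl)
  have hcK : ∀ α < κ.ord, Order.IsSuccLimit α → InK κ (c α) ∧ sSup (c α) = α :=
    fun α hα hl => (hseq α hα hl).1 _ (hcm α hα hl)
  have hcoh : ∀ α < κ.ord, Order.IsSuccLimit α → ∀ γ ∈ acc (c α), γ.cof = χ →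
      ∃ ξ < γ, ∀ β, ξ ≤ β → β < γ → (β ∈ c γ ↔ β ∈ c α) := by
    intro α hα hl γ hγ hγχ
    obtain ⟨D, hD, hDR⟩ := (hseq α hα hl).2.2.2 _ (hcm α hα hl) γ hγ
    have hγα : γ < α := by
      have := hγ.1
      rwa [(hcK α hα hl).2] at this
    have hγκ := hγα.trans hα
    have hDc := hcu γ hγκ hγ.2.isSuccLimit D hD
    subst hDc
    obtain ⟨hK, hs⟩ := hcK γ hγκ hγ.2.isSuccLimit
    rcases hDR with h | h
    · have := h.agree hK
      rwa [hs] at this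
    · rw [hs, hγχ] at h
      exact absurd h (lt_irrefl _)
  obtain ⟨E, hE, hEr⟩ := hr c hcK
  let E₀ : Set Ordinal.{u} := {z | z ∈ E ∧ z.cof = ℵ₀}
  have hE₀ : CofinalIn κ E₀ := by
    refine ⟨fun z hz => hE.1.1 hz.1, fun β hβ => ?_⟩
    obtain ⟨γ, h1, h2, h3⟩ := hE.exists_cof_omega hκ h0κ hβ
    exact ⟨γ, ⟨h1, h3⟩, h2⟩
  obtain ⟨B, hB, hBd⟩ := exists_partition hκ hE₀
  let B' : Ordinal.{u} → Set Ordinal.{u} := fun i => if i < κ.ord then B i else E₀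
  have hB' : ∀ i < θ.ord, CofinalIn κ (B' i) := by
    intro i _
    by_cases hi : i < κ.ord
    · simp only [B', if_pos hi]
      exact (hB i hi).1
    · simp only [B', if_neg hi]
      exact hE₀
  have hχκo : χ.ord < κ.ord := Cardinal.ord_lt_ord.2 hχκ
  obtain ⟨α, ⟨hα, -, hαg⟩, -, hχα, hαl⟩ := hguess B' hB' _ (clubIn_tail hκ h0κ hχκo)
  obtain ⟨hKα, hsα⟩ := hcK α hα hαl
  have hne : ∀ i : Iio χ.ord, (nacc (c α) ∩ B i).Nonempty := by
    intro i
    have hi : (i : Ordinal) < min α θ.ord :=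
      lt_min (i.2.trans_le hχα) (i.2.trans_le (Cardinal.ord_le_ord.2 hθ))
    have h := hαg _ (hcm α hα hαl) i hi
    have hBi : B' i = B i := by simp only [B', if_pos (i.2.trans hχκo)]
    rw [hBi] at h
    by_contra hemp
    rw [not_nonempty_iff_eq_empty.1 hemp] at h
    have : (0 : Ordinal) = α := by simpa using h
    exact hαl.ne_bot (by simpa using this.symm)
  choose y hy using hne
  have hyinj : Function.Injective y := by
    intro i j hij
    have h1 := (hy i).2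
    have h2 := (hy j).2
    rw [hij] at h1
    exact Subtype.ext (hBd _ _ _ h1 h2)
  have hyE : ∀ i, y i ∈ E₀ := fun i => (hB i (i.2.trans hχκo)).2 (hy i).2
  have hYα : range y ⊆ Iio α := by
    rintro _ ⟨i, rfl⟩
    have := hKα.lt_sSup (hy i).1.1
    rwa [hsα] at this
  have hYc : Cardinal.lift.{u + 1} χ ≤ #(range y) := by
    rw [Cardinal.mk_range_eq y hyinj, Cardinal.mk_Iio_ordinal, Cardinal.card_ord]
  obtain ⟨e, he, heY⟩ := exists_increasing hYα hYc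
  set ρ : Ordinal.{u} := ⨆ i, e i with hρ
  have hχl : Order.IsSuccLimit χ.ord := Cardinal.isSuccLimit_ord hχ.aleph0_le
  have hρc : ρ.cof = χ := by
    rw [hρ, Ordinal.cof_iSup_Iio he hχl.isSuccPrelimit, hχ.cof_ord]
  have hbdd : BddAbove (range e) := ⟨α, by rintro _ ⟨i, rfl⟩; exact (hYα (heY i)).le⟩
  have heρ : ∀ i, e i < ρ := by
    intro i
    have h1 : (i : Ordinal) + 1 < χ.ord := hχl.add_one_lt i.2
    have h2 : e i < e ⟨i + 1, h1⟩ := he (by
      show (i : Ordinal) < i + 1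
      exact lt_add_one _)
    exact h2.trans_le (le_ciSup hbdd _)
  have hρα : ρ ≤ α := ciSup_le' fun i => (hYα (heY i)).le
  have hρκ : ρ < κ.ord := hρα.trans_lt hα
  have hρlim : ∀ β < ρ, ∃ i, β < e i := fun β hβ => (lt_ciSup_iff' hbdd).1 hβ
  have hρ0 : ρ ≠ 0 := by
    intro h
    rw [h] at hρc
    simp at hρc
    exact hχ.ne_zero hρc.symm
  have hlimY : ∀ X : Set Ordinal.{u}, (∀ i, e i ∈ X) → IsLim X ρ := by
    intro X hX
    refine ⟨hρ0, fun β hβ => ?_⟩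
    obtain ⟨i, hi⟩ := hρlim β hβ
    exact ⟨e i, hX i, hi, heρ i⟩
  have heE₀ : ∀ i, e i ∈ E₀ := by
    intro i
    obtain ⟨j, hj⟩ := heY i
    rw [← hj]
    exact hyE j
  have hen : ∀ i, e i ∈ nacc (c α) := by
    intro i
    obtain ⟨j, hj⟩ := heY i
    rw [← hj]
    exact (hy j).1
  have hρE : ρ ∈ E := hE.2 ρ hρκ (hlimY E fun i => (heE₀ i).1)
  have hρl : Order.IsSuccLimit ρ := (hlimY E fun i => (heE₀ i).1).isSuccLimit
  -- reflect
  let φ := (Ordinal.ToType.mk (o := χ.ord)).symm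
  obtain ⟨δ, hδ, hδl, hδa⟩ := hEr (Option χ.ord.ToType) (fun t => t.elim ρ fun t => e (φ t))
    (by
      rw [Cardinal.mk_option, Cardinal.mk_toType, Cardinal.card_ord]
      exact (Cardinal.add_one_eq hχ.aleph0_le).le)
    (by
      rintro (_ | t)
      · exact ⟨hρE, Or.inr hρc⟩
      · exact ⟨(heE₀ _).1, Or.inl (heE₀ _).2⟩)
  have hρδ : ρ ∈ acc (c δ) := hδa none
  have heδ : ∀ i, e i ∈ acc (c δ) := by
    intro i
    have := hδa (some (φ.symm i))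
    simpa using this
  obtain ⟨ξ, hξ, hag⟩ := hcoh δ hδ hδl ρ hρδ hρc
  have hag' : ∃ ξ' < ρ, ∀ β, ξ' ≤ β → β < ρ → (β ∈ c ρ ↔ β ∈ c α) := by
    rcases hρα.lt_or_eq with h | h
    · refine hcoh α hα hαl ρ ⟨by rwa [hsα], hlimY _ fun i => (hen i).1⟩ hρc
    · refine ⟨0, pos_iff_ne_zero.2 hρ0, fun β _ _ => by rw [h]⟩
  obtain ⟨ξ', hξ', hag'⟩ := hag'
  obtain ⟨i, hi⟩ := hρlim (max ξ ξ') (max_lt hξ hξ')
  have h1 : IsLim (c ρ) (e i) :=
    (heδ i).2.transfer (fun β h1 h2 => (hag β h1 h2).symm) ((le_max_left _ _).trans_lt hi) (heρ i)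
  have h2 : IsLim (c α) (e i) :=
    h1.transfer hag' ((le_max_right _ _).trans_lt hi) (heρ i)
  exact (hen i).2 ⟨hKα.lt_sSup (hen i).1, h2⟩

end Pool.Agent.H9.Proxy
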