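import Pool.Agent.H9.Proxy.Reflect
import Pool.Agent.H9.Proxy.Hyp

open Set Cardinal Ordinal

universe u

namespace Pool.Agent.H9.Proxy

theorem IsLim.mono {X Y : Set Ordinal.{u}} {γ : Ordinal.{u}} (h : IsLim X γ) (hXY : X ⊆ Y) :
    IsLim Y γ := by
  refine ⟨h.1, fun β hβ => ?_⟩
  obtain ⟨δ, h1, h2, h3⟩ := h.2 β hβ
  exact ⟨δ, hXY h1, h2, h3⟩

/-- fewer than `κ` many clubs have a club intersection -/
theorem clubIn_iInter {κ : Cardinal.{u}} (hκ : κ.IsRegular) (h0 : ℵ₀ < κ) {ι : Type u}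
    (hι : Cardinal.mk ι < κ) {E : ι → Set Ordinal.{u}} (hE : ∀ i, ClubIn κ (E i)) :
    ClubIn κ {α | α < κ.ord ∧ ∀ i, α ∈ E i} := by
  have hnx : ∀ β < κ.ord, ∀ j : ι, ∃ γ ∈ E j, β < γ := fun β hβ j => (hE j).exists_gt hκ hβ
  choose! nx hnx1 hnx2 using hnx
  let h : Ordinal.{u} → Ordinal.{u} := fun β => ⨆ j, nx β j
  have hh : ∀ β < κ.ord, h β < κ.ord := by
    intro β hβ
    apply Ordinal.iSup_lt_of_lt_cof
    · rwa [hκ.cof_ord]
    · exact fun j => (hE j).1.1 (hnx1 β hβ j)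
  have hclub := clubIn_closure hκ h0 hh
  refine ⟨⟨fun α h => h.1, fun β hβ => ?_⟩, fun γ hγ hl => ⟨hγ, fun i => ?_⟩⟩
  · obtain ⟨α, ⟨hα, hαl, hαh⟩, hβα⟩ := hclub.1.2 β hβ
    refine ⟨α, ⟨hα, fun i => ?_⟩, hβα⟩
    refine (hE i).2 α hα ⟨fun h => hαl.ne_bot (by simpa using h), fun β hβ => ?_⟩
    have hβκ := hβ.trans hα
    refine ⟨nx β i, hnx1 β hβκ i, hnx2 β hβκ i, lt_of_le_of_lt ?_ (hαh β hβ)⟩
    exact le_ciSup (f := fun j => nx β j) Ordinal.bddAbove_of_small i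
  · exact (hE i).2 γ hγ (hl.mono fun x hx => hx.2 i)

theorem ClubIn.inter {κ : Cardinal.{u}} (hκ : κ.IsRegular) (h0 : ℵ₀ < κ)
    {E F : Set Ordinal.{u}} (hE : ClubIn κ E) (hF : ClubIn κ F) : ClubIn κ (E ∩ F) := by
  have h := clubIn_iInter hκ h0 (ι := ULift.{u} Bool) ((Cardinal.lt_aleph0_of_finite _).trans h0)
    (E := fun b => if b.down then E else F) (by
      rintro ⟨b⟩
      cases b
      · exact hF
      · exact hE)
  refine ⟨⟨fun x hx => hE.1.1 hx.1, fun β hβ => ?_⟩, fun γ hγ hl =>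
    ⟨hE.2 γ hγ (hl.mono inter_subset_left), hF.2 γ hγ (hl.mono inter_subset_right)⟩⟩
  obtain ⟨α, ⟨h1, h2⟩, h3⟩ := h.1.2 β hβ
  refine ⟨α, ⟨?_, ?_⟩, h3⟩
  · exact h2 ⟨true⟩
  · exact h2 ⟨false⟩

/-- the set of points of cofinality `ω` is not a union of fewer than `κ` nonstationary sets -/
theorem exists_stat {κ : Cardinal.{u}} (hκ : κ.IsRegular) (h0 : ℵ₀ < κ) {ι : Type u}
    (hι : Cardinal.mk ι < κ) {S : ι → Set Ordinal.{u}}
    (hS : ∀ δ < κ.ord, δ.cof = ℵ₀ → ∃ i, δ ∈ S i) : ∃ i, StatIn κ (S i) := by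
  by_contra hcon
  push Not at hcon
  have h1 : ∀ i, ∃ E, ClubIn κ E ∧ ∀ x ∈ E, x ∉ S i := by
    intro i
    have := hcon i
    unfold StatIn at this
    push Not at this
    obtain ⟨E, hE, h2⟩ := this
    refine ⟨E, hE, fun x hx hxS => ?_⟩
    have : x ∈ S i ∩ E := ⟨hxS, hx⟩
    rw [h2] at this
    exact this
  choose E hE hES using h1
  obtain ⟨γ, h2, -, h3⟩ := (clubIn_iInter hκ h0 hι hE).exists_cof_omega hκ h0 hκ.ord_pos
  obtain ⟨i, hi⟩ := hS γ h2.1 h3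
  exact hES i γ (h2.2 i) hi

theorem typeLT_mono {X Y : Set Ordinal.{u}} (h : X ⊆ Y) : typeLT X ≤ typeLT Y := by
  rw [Ordinal.type_le_iff']
  exact ⟨⟨⟨fun x => ⟨x.1, h x.2⟩, fun x y hxy => Subtype.ext (congrArg (fun t : Y => t.1) hxy)⟩,
    Iff.rfl⟩⟩

theorem typeLT_le {X : Set Ordinal.{u}} {i : Ordinal.{u + 1}}
    (h : ∀ x ∈ X, ∃ Y, X ∩ Iic x ⊆ Y ∧ typeLT Y ≤ i) : typeLT X ≤ i := by
  refine le_of_forall_lt fun j hj => ?_
  obtain ⟨x, hx⟩ := Ordinal.typein_surj _ hj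
  obtain ⟨Y, h1, h2⟩ := h x.1 x.2
  have h3 : typeLT (X ∩ Iic x.1 : Set Ordinal.{u}) ≤ i := (typeLT_mono h1).trans h2
  refine lt_of_lt_of_le ?_ h3
  rw [← hx]
  let f : (X ∩ Iic x.1 : Set Ordinal.{u}) → X := fun y => ⟨y.1, y.2.1⟩
  let g : InitialSeg
      ((· < ·) : (X ∩ Iic x.1 : Set Ordinal.{u}) → (X ∩ Iic x.1 : Set Ordinal.{u}) → Prop)
      ((· < ·) : X → X → Prop) :=
    ⟨⟨⟨f, fun y z hyz => Subtype.ext (congrArg (fun t : X => t.1) hyz)⟩, Iff.rfl⟩, by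
      rintro y z hz
      exact ⟨⟨z.1, z.2, (le_of_lt hz).trans y.2.2⟩, rfl⟩⟩
  have h4 := Ordinal.typein_apply g ⟨x.1, x.2, mem_Iic.2 le_rfl⟩
  have h5 : g ⟨x.1, x.2, mem_Iic.2 le_rfl⟩ = x := rfl
  rw [h5] at h4
  rw [h4]
  exact Ordinal.typein_lt_type _ _

/-- **Refutation for the relations `^Ω R_χ`**: if `κ = lam⁺`, `lam` regular uncountable, has
Magidor's reflection property, then for `Ω = S^κ_lam` the proxy principle fails for all
`θ ≥ lam`. -/
theorem not_pMinus_right {κ lam χ : Cardinal.{u}} (hlam : lam.IsRegular) (h0 : ℵ₀ < lam)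
    (hκ : κ.IsRegular) (hlκ : lam < κ) (hr : FullReflection κ lam) {θ ν : Cardinal.{u}}
    (hθ : lam ≤ θ) :
    ¬ PMinus κ 2 (OmegaRel {α | α.cof = lam} (RightRel χ SqStar)) θ ν := by
  classical
  rintro ⟨𝒞, hseq, hguess⟩
  have h0κ : ℵ₀ < κ := h0.trans hlκ
  let c : Ordinal.{u} → Set Ordinal.{u} := fun α => if h : (𝒞 α).Nonempty then h.some else ∅
  have hcm : ∀ α < κ.ord, Order.IsSuccLimit α → c α ∈ 𝒞 α := by
    intro α hα hl
    have h := (hseq α hα hl).2.1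
    simp only [c, dif_pos h]
    exact h.some_mem
  have hcu : ∀ α < κ.ord, Order.IsSuccLimit α → ∀ C ∈ 𝒞 α, C = c α := by
    intro α hα hl C hC
    exact eq_of_mk_lt_two (hseq α hα hl).2.2.1 hC (hcm α hα hl)
  have hcK : ∀ α < κ.ord, Order.IsSuccLimit α → InK κ (c α) ∧ sSup (c α) = α :=
    fun α hα hl => (hseq α hα hl).1 _ (hcm α hα hl)
  have hrel : ∀ α < κ.ord, Order.IsSuccLimit α → ∀ γ ∈ acc (c α),
      OmegaRel {α | α.cof = lam} (RightRel χ SqStar) (c γ) (c α) ∧ γ < α := by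
    intro α hα hl γ hγ
    obtain ⟨D, hD, hDR⟩ := (hseq α hα hl).2.2.2 _ (hcm α hα hl) γ hγ
    have hγα : γ < α := by
      have := hγ.1
      rwa [(hcK α hα hl).2] at this
    have hDc := hcu γ (hγα.trans hα) hγ.2.isSuccLimit D hD
    subst hDc
    exact ⟨hDR, hγα⟩
  have hΩ : ∀ α < κ.ord, Order.IsSuccLimit α → ∀ γ ∈ acc (c α), γ.cof ≠ lam := by
    intro α hα hl γ hγ hγc
    obtain ⟨⟨-, h1⟩, h2⟩ := hrel α hα hl γ hγ
    rw [(hcK γ (h2.trans hα) hγ.2.isSuccLimit).2] at h1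
    exact h1 hγc
  -- a long `c α` has `cf α = lam`
  have hlaml : Order.IsSuccLimit lam.ord := Cardinal.isSuccLimit_ord hlam.aleph0_le
  have hsmall : ∀ α < κ.ord, Order.IsSuccLimit α →
      Cardinal.lift.{u + 1} lam ≤ Cardinal.mk (c α) → α.cof = lam := by
    intro α hα hl hbig
    obtain ⟨hK, hs⟩ := hcK α hα hl
    have hsub : c α ⊆ Iio α := by
      intro x hx
      have := hK.lt_sSup hx
      rwa [hs] at this
    obtain ⟨e, he, heC⟩ := exists_increasing hsub hbig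
    set ρ : Ordinal.{u} := ⨆ i, e i with hρ
    have hρc : ρ.cof = lam := by
      rw [hρ, Ordinal.cof_iSup_Iio he hlaml.isSuccPrelimit, hlam.cof_ord]
    have hbdd : BddAbove (range e) := ⟨α, by rintro _ ⟨i, rfl⟩; exact (hsub (heC i)).le⟩
    have heρ : ∀ i, e i < ρ := by
      intro i
      have h1 : (i : Ordinal) + 1 < lam.ord := hlaml.add_one_lt i.2
      have h2 : e i < e ⟨i + 1, h1⟩ := he (by
        show (i : Ordinal) < i + 1
        exact lt_add_one _)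
      exact h2.trans_le (le_ciSup hbdd _)
    have hρα : ρ ≤ α := ciSup_le' fun i => (hsub (heC i)).le
    rcases hρα.lt_or_eq with h | h
    · exfalso
      have hρ0 : ρ ≠ 0 := by
        intro h
        rw [h] at hρc
        simp at hρc
        exact hlam.ne_zero hρc.symm
      refine hΩ α hα hl ρ ⟨by rwa [hs], hρ0, fun β hβ => ?_⟩ hρc
      obtain ⟨i, hi⟩ := (lt_ciSup_iff' hbdd).1 hβ
      exact ⟨e i, heC i, hi, heρ i⟩
    · rw [← h]
      exact hρc
  -- order types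
  let Λ : Ordinal.{u + 1} := Ordinal.lift.{u + 1} lam.ord
  have hΛ : ∀ δ < κ.ord, δ.cof = ℵ₀ → ∃ i < lam.ord, typeLT (c δ) = Ordinal.lift.{u + 1} i := by
    intro δ hδ hδc
    have hl : Order.IsSuccLimit δ := by
      rw [← Ordinal.one_lt_cof_iff, hδc]
      exact Cardinal.one_lt_aleph0
    have h1 : Cardinal.mk (c δ) < Cardinal.lift.{u + 1} lam := by
      by_contra hcon
      push Not at hcon
      have := hsmall δ hδ hl hcon
      rw [hδc] at this
      exact h0.ne this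
    have h2 : typeLT (c δ) < Ordinal.lift.{u + 1} lam.ord := by
      rw [Cardinal.lift_ord, Cardinal.lt_ord]
      exact h1
    obtain ⟨i, hi⟩ := Ordinal.mem_range_lift_of_le h2.le
    refine ⟨i, ?_, hi.symm⟩
    rw [← hi, Ordinal.lift_lt] at h2
    exact h2
  let L := lam.ord.ToType
  let o : L → Ordinal.{u} := fun t => ((Ordinal.ToType.mk (o := lam.ord)).symm t : Ordinal)
  obtain ⟨t, ht⟩ := exists_stat hκ h0κ (ι := L) (by simpa [L] using hlκ)
    (S := fun t => {δ | (δ < κ.ord ∧ δ.cof = ℵ₀) ∧ typeLT (c δ) = Ordinal.lift.{u + 1} (o t)}) (by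
      intro δ hδ hδc
      obtain ⟨i, hi, h1⟩ := hΛ δ hδ hδc
      refine ⟨Ordinal.ToType.mk ⟨i, hi⟩, ⟨hδ, hδc⟩, ?_⟩
      rw [h1]
      simp only [o, OrderIso.symm_apply_apply])
  have hot : o t < lam.ord := ((Ordinal.ToType.mk (o := lam.ord)).symm t).2
  generalize o t = i₀ at ht hot
  obtain ⟨E, hE, hEr⟩ := hr _ (fun δ hδ => hδ.1) ht
  -- hitting
  let E₀ : Set Ordinal.{u} := {α | α < κ.ord ∧ 0 ≤ α ∧ Order.IsSuccLimit α}
  have hE₀ : CofinalIn κ E₀ := (clubIn_tail hκ h0κ hκ.ord_pos).1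
  obtain ⟨B, hB, hBd⟩ := exists_partition hκ hE₀
  let B' : Ordinal.{u} → Set Ordinal.{u} := fun i => if i < κ.ord then B i else E₀
  have hB' : ∀ i < θ.ord, CofinalIn κ (B' i) := by
    intro i _
    by_cases hi : i < κ.ord
    · simp only [B', if_pos hi]
      exact (hB i hi).1
    · simp only [B', if_neg hi]
      exact hE₀
  have hlκo : lam.ord < κ.ord := Cardinal.ord_lt_ord.2 hlκ
  obtain ⟨α, ⟨hα, -, hαg⟩, hαE, -, hlα, hαl⟩ :=
    hguess B' hB' _ (hE.inter hκ h0κ (clubIn_tail hκ h0κ hlκo))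
  obtain ⟨hKα, hsα⟩ := hcK α hα hαl
  have hne : ∀ i : Iio lam.ord, (nacc (c α) ∩ B i).Nonempty := by
    intro i
    have hi : (i : Ordinal) < min α θ.ord :=
      lt_min (i.2.trans_le hlα) (i.2.trans_le (Cardinal.ord_le_ord.2 hθ))
    have h := hαg _ (hcm α hα hαl) i hi
    have hBi : B' i = B i := by simp only [B', if_pos (i.2.trans hlκo)]
    rw [hBi] at h
    by_contra hemp
    rw [not_nonempty_iff_eq_empty.1 hemp] at h
    have : (0 : Ordinal) = α := by simpa using h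
    exact hαl.ne_bot (by simpa using this.symm)
  choose y hy using hne
  have hyinj : Function.Injective y := by
    intro i j hij
    have h1 := (hy i).2
    have h2 := (hy j).2
    rw [hij] at h1
    exact Subtype.ext (hBd _ _ _ h1 h2)
  have hcα : α.cof = lam := by
    apply hsmall α hα hαl
    have h1 : Cardinal.lift.{u + 1} lam = Cardinal.mk (range y) := by
      rw [Cardinal.mk_range_eq y hyinj, Cardinal.mk_Iio_ordinal, Cardinal.card_ord]
    rw [h1]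
    apply Cardinal.mk_le_mk_of_subset
    rintro _ ⟨i, rfl⟩
    exact (hy i).1.1
  have hcoh : ∀ γ ∈ acc (c α), ∃ ξ < γ, ∀ β, ξ ≤ β → β < γ → (β ∈ c γ ↔ β ∈ c α) := by
    intro γ hγ
    obtain ⟨⟨h1, -⟩, h2⟩ := hrel α hα hαl γ hγ
    obtain ⟨hK, hs⟩ := hcK γ (h2.trans hα) hγ.2.isSuccLimit
    rcases h1 with h | ⟨-, h⟩
    · have := h.agree hK
      rwa [hs] at this
    · exfalso
      let z : Iio lam.ord := ⟨0, hlam.ord_pos⟩
      obtain ⟨γ', hγ'⟩ := h _ (hy z).1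
      have h3 : y z ∈ E₀ := (hB z (z.2.trans hlκo)).2 (hy z).2
      rw [hγ'] at h3
      exact absurd h3.2.2 (Order.not_isSuccLimit_add_one γ')
  have hsub : c α ⊆ Iio α := by
    intro x hx
    have := hKα.lt_sSup hx
    rwa [hsα] at this
  have hacc : ∀ x ∈ acc (c α), x ∈ c α := fun x hx => hKα.2.2.2 hx
  -- stabilisation of the coherence
  obtain ⟨ε, hε, hstab⟩ : ∃ ε < α, ∀ β < α, ∃ δ, (δ < κ.ord ∧ δ.cof = ℵ₀) ∧
      typeLT (c δ) = Ordinal.lift.{u + 1} i₀ ∧ δ ∈ acc (c α) ∧ β ≤ δ ∧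
      ∀ η, ε ≤ η → η < δ → (η ∈ c δ ↔ η ∈ c α) := by
    by_contra hcon
    push Not at hcon
    choose! g hg1 hg2 using hcon
    have hstat := hEr α hαE hcα
    obtain ⟨δ, ⟨hδ1, hδ2⟩, hδ3, hδ4⟩ := hstat
      {δ | δ ∈ acc (c α) ∧ ∀ ε < δ, ∃ ε', ε ≤ ε' ∧ ε' < δ ∧ g ε' < δ}
      (fun δ hδ => hsub (hacc δ hδ.1)) (by
        intro β hβ
        have hnx : ∀ x < α, ∃ z ∈ c α, max x (g x) < z := by
          intro x hx
          obtain ⟨δ, h1, h2, -⟩ := hKα.exists_gt (β := max x (g x)) (by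
            rw [hsα]
            exact max_lt hx (hg1 x hx))
          exact ⟨δ, h1, h2⟩
        choose! nx hnx1 hnx2 using hnx
        let s : ℕ → Ordinal.{u} := fun n => Nat.rec β (fun _ x => nx x) n
        have hs0 : ∀ n, s n < α := by
          intro n
          induction n with
          | zero => exact hβ
          | succ n ih => exact hsub (hnx1 _ ih)
        have hsc : ∀ n, s (n + 1) = nx (s n) := fun n => rfl
        have hs1 : StrictMono s := strictMono_nat_of_lt_succ fun n => by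
          rw [hsc]
          exact (le_max_left _ _).trans_lt (hnx2 _ (hs0 n))
        have hbd : BddAbove (range s) := Ordinal.bddAbove_of_small
        have hδα : ⨆ n, s n < α := by
          apply Ordinal.lift_iSup_lt_of_lt_cof
          · simp only [Cardinal.mk_nat, Cardinal.lift_aleph0]
            rw [← Ordinal.lift_cof, hcα]
            simpa using h0
          · exact hs0
        have hsl : ∀ n, s n < ⨆ n, s n := fun n =>
          (hs1 (Nat.lt_succ_self n)).trans_le (le_ciSup hbd (n + 1))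
        refine ⟨⨆ n, s n, ⟨⟨by rwa [hsα], ?_, fun x hx => ?_⟩, fun x hx => ?_⟩, le_ciSup hbd 0⟩
        · exact (isLim_iSup_nat hs1 (E := Set.univ) fun n => mem_univ _).1
        · obtain ⟨n, hn⟩ := (lt_ciSup_iff' hbd).1 hx
          refine ⟨s (n + 1), ?_, hn.trans (hs1 (Nat.lt_succ_self n)), hsl (n + 1)⟩
          rw [hsc]
          exact hnx1 _ (hs0 n)
        · obtain ⟨n, hn⟩ := (lt_ciSup_iff' hbd).1 hx
          refine ⟨s n, hn.le, hsl n, ?_⟩
          have h1 : g (s n) < s (n + 1) := by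
            rw [hsc]
            exact (le_max_right _ _).trans_lt (hnx2 _ (hs0 n))
          exact h1.trans (hsl (n + 1)))
      (by
        intro γ hγ hl
        refine ⟨⟨by rwa [hsα], hl.mono fun x hx => hacc x hx.1⟩, fun x hx => ?_⟩
        obtain ⟨δ, hδ, h1, h2⟩ := hl.2 x hx
        obtain ⟨ε', h3, h4, h5⟩ := hδ.2 x h1
        exact ⟨ε', h3, h4.trans h2, h5.trans h2⟩)
    obtain ⟨ξ, hξ, hag⟩ := hcoh δ hδ3
    obtain ⟨ε', h1, h2, h3⟩ := hδ4 ξ hξ
    have hδα : δ < α := hsub (hacc δ hδ3)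
    obtain ⟨η, h4, h5, h6⟩ := hg2 ε' (h2.trans hδα) δ hδ1 hδ2 hδ3 h3.le
    rcases h6 with ⟨h7, h8⟩ | ⟨h7, h8⟩
    · exact h8 ((hag η (h1.trans h4) h5).1 h7)
    · exact h7 ((hag η (h1.trans h4) h5).2 h8)
  -- the final contradiction
  have htype : typeLT (c α \ Iio ε : Set Ordinal.{u}) ≤ Ordinal.lift.{u + 1} i₀ := by
    apply typeLT_le
    rintro x ⟨hx, hxε⟩
    have hxα : x + 1 < α := hαl.add_one_lt (hsub hx)
    obtain ⟨δ, -, h1, -, h3, h4⟩ := hstab _ hxα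
    refine ⟨c δ, ?_, h1.le⟩
    rintro z ⟨⟨hz, hzε⟩, hzx⟩
    exact (h4 z (not_lt.1 hzε) ((Order.lt_add_one_iff.2 hzx).trans_le h3)).2 hz
  have hcard : Cardinal.mk (c α \ Iio ε : Set Ordinal.{u}) < Cardinal.lift.{u + 1} lam := by
    have h1 : typeLT (c α \ Iio ε : Set Ordinal.{u}) < Ordinal.lift.{u + 1} lam.ord :=
      htype.trans_lt (Ordinal.lift_lt.2 hot)
    rw [Cardinal.lift_ord, Cardinal.lt_ord] at h1
    exact h1
  have hlt : sSup (c α \ Iio ε : Set Ordinal.{u}) < α := by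
    apply Ordinal.sSup_lt_of_lt_cof
    · rw [← Ordinal.lift_cof, hcα]
      exact hcard
    · exact fun x hx => hsub hx.1
  obtain ⟨δ, hδ, h1, h2⟩ := hKα.exists_gt (β := max ε (sSup (c α \ Iio ε))) (by
    rw [hsα]
    exact max_lt hε hlt)
  have h3 : δ ≤ sSup (c α \ Iio ε) := by
    apply le_csSup (hKα.bdd.mono sdiff_subset)
    exact ⟨hδ, not_lt.2 ((le_max_left _ _).trans h1.le)⟩
  exact absurd ((le_max_right _ _).trans_lt h1) (not_lt.2 h3)

end Pool.Agent.H9.Proxy
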