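import Pool.Agent.H9.Proxy.Positive
import Pool.Agent.H9.Proxy.Right

open Set Cardinal Ordinal

universe u

namespace Pool.Agent.H9.Proxy

/-- a cofinal set of order type `cf α`: its proper initial segments have size less than `cf α` -/
theorem exists_thin {α : Ordinal.{u}} (hl : Order.IsSuccLimit α) :
    ∃ A ⊆ Iio α, (∀ β < α, ∃ a ∈ A, β < a) ∧
      ∀ δ < α, Cardinal.mk (A ∩ Iio δ : Set Ordinal.{u}) < Cardinal.lift.{u + 1} α.cof := by
  obtain ⟨s, hs, ht⟩ := Ordinal.exists_ord_cof_eq α.ToType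
  let o : α.ToType → Ordinal.{u} := fun t => ((Ordinal.ToType.mk (o := α)).symm t : Ordinal)
  have hcof : ∀ β < α, ∃ t ∈ s, β ≤ o t := by
    intro β hβ
    obtain ⟨t, ht, hle⟩ := hs (Ordinal.ToType.mk ⟨β, hβ⟩)
    refine ⟨t, ht, ?_⟩
    have := (Ordinal.ToType.mk (o := α)).symm.monotone hle
    rw [OrderIso.symm_apply_apply] at this
    exact this
  refine ⟨o '' s, ?_, ?_, ?_⟩
  · rintro _ ⟨t, -, rfl⟩
    exact ((Ordinal.ToType.mk (o := α)).symm t).2
  · intro β hβ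
    obtain ⟨t, ht, hle⟩ := hcof (β + 1) (hl.add_one_lt hβ)
    exact ⟨o t, ⟨t, ht, rfl⟩, (lt_add_one β).trans_le hle⟩
  · intro δ hδ
    obtain ⟨x, hx, hle⟩ := hcof δ hδ
    have h1 : Ordinal.typein ((· < ·) : s → s → Prop) ⟨x, hx⟩ < (Order.cof α.ToType).ord := by
      rw [← ht]
      exact Ordinal.typein_lt_type _ _
    rw [Cardinal.lt_ord, Ordinal.card_typein, Ordinal.cof_toType] at h1
    have h2 : (o '' s ∩ Iio δ : Set Ordinal.{u}) ⊆
        range (fun y : {y : s // y < ⟨x, hx⟩} => o y.1.1) := by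
      rintro _ ⟨⟨t, ht, rfl⟩, h3⟩
      refine ⟨⟨⟨t, ht⟩, ?_⟩, rfl⟩
      show t < x
      have h4 : (Ordinal.ToType.mk (o := α)).symm t < (Ordinal.ToType.mk (o := α)).symm x := by
        show o t < o x
        exact lt_of_lt_of_le h3 hle
      exact (Ordinal.ToType.mk (o := α)).symm.lt_iff_lt.1 h4
    refine lt_of_le_of_lt (Cardinal.mk_le_mk_of_subset h2) ?_
    have h3 := Cardinal.mk_range_le_lift (f := fun y : {y : s // y < ⟨x, hx⟩} => o y.1.1)
    rw [Cardinal.lift_id'.{u, u + 1}] at h3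
    exact h3.trans_lt (Cardinal.lift_lt.2 h1)

/-- Exempt clubs: `α` has a club `C` of order type `cf α` all of whose elements which are not
limit points are successor ordinals. -/
theorem exists_exempt {α : Ordinal.{u}} (hl : Order.IsSuccLimit α) :
    ∃ C ⊆ Iio α, (∀ β < α, ∃ γ ∈ C, β < γ) ∧ (∀ γ < α, IsLim C γ → γ ∈ C ∧ γ.cof < α.cof) ∧
      ∀ β ∈ C, ¬ IsLim C β → ∃ γ, β = γ + 1 := by
  obtain ⟨A, hA1, hA2, hA3⟩ := exists_thin hl
  let C : Set Ordinal.{u} := {x | (∃ a ∈ A, x = a + 1) ∨ (x < α ∧ IsLim A x)}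
  have hlim1 : ∀ γ, IsLim C γ → IsLim A γ := by
    intro γ hγ
    refine ⟨hγ.1, fun β hβ => ?_⟩
    obtain ⟨x, hx, h1, h2⟩ := hγ.2 _ (hγ.isSuccLimit.add_one_lt hβ)
    rcases hx with ⟨a, ha, rfl⟩ | ⟨-, hx⟩
    · exact ⟨a, ha, lt_of_add_lt_add_right h1, (lt_add_one a).trans h2⟩
    · obtain ⟨a, ha, h3, h4⟩ := hx.2 _ h1
      exact ⟨a, ha, (lt_add_one β).trans h3, h4.trans h2⟩
  have hlim2 : ∀ γ, IsLim A γ → IsLim C γ := by
    intro γ hγ
    refine ⟨hγ.1, fun β hβ => ?_⟩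
    obtain ⟨a, ha, h1, h2⟩ := hγ.2 _ hβ
    exact ⟨a + 1, Or.inl ⟨a, ha, rfl⟩, h1.trans (lt_add_one a), hγ.isSuccLimit.add_one_lt h2⟩
  refine ⟨C, ?_, ?_, ?_, ?_⟩
  · rintro x (⟨a, ha, rfl⟩ | ⟨hx, -⟩)
    · exact hl.add_one_lt (hA1 ha)
    · exact hx
  · intro β hβ
    obtain ⟨a, ha, h1⟩ := hA2 β hβ
    exact ⟨a + 1, Or.inl ⟨a, ha, rfl⟩, h1.trans (lt_add_one a)⟩
  · intro γ hγ hγl
    have h1 := hlim1 γ hγl
    refine ⟨Or.inr ⟨hγ, h1⟩, ?_⟩
    by_contra hcon
    push Not at hcon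
    have h2 : sSup (A ∩ Iio γ) < γ := by
      apply Ordinal.sSup_lt_of_lt_cof
      · rw [← Ordinal.lift_cof]
        exact (hA3 γ hγ).trans_le (Cardinal.lift_le.2 hcon)
      · exact fun x hx => hx.2
    obtain ⟨a, ha, h3, h4⟩ := h1.2 _ h2
    have h5 : a ≤ sSup (A ∩ Iio γ) := le_csSup (bdd_of_subset inter_subset_right) ⟨ha, h4⟩
    exact absurd h3 (not_lt.2 h5)
  · rintro β (⟨a, -, rfl⟩ | ⟨-, hβ⟩) hn
    · exact ⟨a, rfl⟩
    · exact absurd (hlim2 β hβ) hn

/-- **The instance `θ = 1` for the relations `^Ω R_κ`**, `κ = lam⁺`, `Ω = S^κ_lam`. -/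
theorem pMinus_one_right {κ lam : Cardinal.{u}} (hκ : κ = Order.succ lam) (hG : Guess κ) :
    PMinus κ 2 (OmegaRel {α | α.cof = lam} (RightRel κ Sq)) 1 2 := by
  classical
  obtain ⟨N, hN, hNB⟩ := hG
  choose! X hX1 hX2 hX3 hX4 using fun (α : Ordinal.{u}) (h : Order.IsSuccLimit α) =>
    exists_exempt h
  let c : Ordinal.{u} → Set Ordinal.{u} := fun α => if α.cof = ℵ₀ then N α else X α
  have hcX : ∀ α, α.cof ≠ ℵ₀ → c α = X α := fun α h => if_neg h
  have hcN : ∀ α, α.cof = ℵ₀ → c α = N α := fun α h => if_pos h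
  have hXs : ∀ α, Order.IsSuccLimit α → sSup (X α) = α := by
    intro α hl
    apply le_antisymm
    · exact csSup_le' fun x hx => (hX1 α hl hx).le
    · by_contra hlt
      push Not at hlt
      obtain ⟨γ, hγ, h1⟩ := hX2 α hl _ hlt
      exact absurd (le_csSup (bdd_of_subset (hX1 α hl)) hγ) (not_le.2 h1)
  have hc1 : ∀ α < κ.ord, Order.IsSuccLimit α → InK κ (c α) ∧ sSup (c α) = α := by
    intro α hα hl
    have hα0 : α ≠ 0 := by
      rintro rfl
      exact hl.ne_bot (by simp)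
    by_cases h : α.cof = ℵ₀
    · obtain ⟨h1, h2, h3⟩ := hN α hα h
      rw [hcN α h]
      refine ⟨⟨?_, fun x hx => (h1 hx).trans hα, ?_, ?_⟩, h2⟩
      · by_contra hemp
        rw [not_nonempty_iff_eq_empty.1 hemp] at h2
        exact hα0 (by simpa using h2.symm)
      · rw [h2]
        exact fun h4 => lt_irrefl α (mem_Iio.1 (h1 h4))
      · rintro γ ⟨h4, h5⟩
        rw [h2] at h4
        exact absurd h5 (h3 γ h4)
    · rw [hcX α h]
      have hs := hXs α hl
      refine ⟨⟨?_, fun x hx => lt_trans (hX1 α hl hx) hα, ?_, ?_⟩, hs⟩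
      · obtain ⟨γ, hγ, -⟩ := hX2 α hl 0 (pos_iff_ne_zero.2 hα0)
        exact ⟨γ, hγ⟩
      · rw [hs]
        exact fun h4 => lt_irrefl α (mem_Iio.1 (hX1 α hl h4))
      · rintro γ ⟨h4, h5⟩
        rw [hs] at h4
        exact (hX3 α hl γ h4 h5).1
  refine ⟨fun α => {c α}, ?_, ?_⟩
  · intro α hα hl
    refine ⟨?_, singleton_nonempty _, ?_, ?_⟩
    · rintro C rfl
      exact hc1 α hα hl
    · rw [Cardinal.mk_singleton, Cardinal.lift_ofNat]
      exact Cardinal.one_lt_two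
    · rintro C rfl γ ⟨hγ, hγl⟩
      obtain ⟨hK, hs⟩ := hc1 α hα hl
      rw [hs] at hγ
      obtain ⟨hKγ, hsγ⟩ := hc1 γ (hγ.trans hα) hγl.isSuccLimit
      by_cases h : α.cof = ℵ₀
      · exfalso
        rw [hcN α h] at hγl
        exact (hN α hα h).2.2 γ hγ hγl
      · have hcα := hcX α h
        refine ⟨c γ, rfl, Or.inr ⟨?_, ?_⟩, ?_⟩
        · have h1 : typeLT (c α) ≤ typeLT (Iio α) := by
            apply typeLT_mono
            rw [hcα]
            exact hX1 α hl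
          rw [Ordinal.type_Iio_lt, Ordinal.typein_ordinal] at h1
          exact h1.trans_lt (Ordinal.lift_lt.2 hα)
        · rintro β ⟨h1, h2⟩
          rw [hcα] at h1
          refine hX4 α hl β h1 fun h3 => h2 ⟨?_, ?_⟩
          · rw [hs]
            exact hX1 α hl h1
          · rwa [hcα]
        · rw [hsγ]
          show ¬ γ.cof = lam
          have h1 : γ.cof < α.cof := by
            rw [hcα] at hγl
            exact (hX3 α hl γ hγ hγl).2
          have h2 : α.cof ≤ lam := by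
            have h3 := (Ordinal.cof_le_card α).trans_lt (Cardinal.lt_ord.1 hα)
            rw [hκ] at h3
            exact Order.lt_succ_iff.1 h3
          exact (h1.trans_le h2).ne
  · intro B hB
    have hB0 : CofinalIn κ (B 0) := hB 0 (by simp)
    intro E hE
    obtain ⟨α, ⟨hα, hαc, hαB⟩, hαE⟩ := hNB (B 0) hB0 E hE
    have hl : Order.IsSuccLimit α := by
      rw [← Ordinal.one_lt_cof_iff, hαc]
      exact Cardinal.one_lt_aleph0
    refine ⟨α, ⟨hα, ?_, ?_⟩, hαE⟩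
    · rw [Cardinal.mk_singleton, Cardinal.lift_ofNat]
      exact Cardinal.one_lt_two
    · rintro C rfl i hi
      have hi0 : i = 0 := by
        have := lt_of_lt_of_le hi (min_le_right _ _)
        simpa using this
      subst hi0
      rw [hcN α hαc]
      have hn : nacc (N α) = N α := by
        apply subset_antisymm
        · exact fun x hx => hx.1
        · intro x hx
          refine ⟨hx, fun h => ?_⟩
          exact (hN α hα hαc).2.2 x ((hN α hα hαc).1 hx) h.2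
      rw [hn]
      exact hαB

end Pool.Agent.H9.Proxy
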