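import Pool.Agent.H9.Proxy.Diamond

open Set Cardinal Ordinal

universe u

namespace Pool.Agent.H9.Proxy

/-- Coding of `λ × λ`-indexed families of ordinals below `κ` by ordinals below `κ`. -/
theorem exists_coding {lam κ : Cardinal.{u}} (hlam : ℵ₀ ≤ lam) (hκr : κ.IsRegular)
    (h2 : κ ^ lam ≤ κ) : ∃ D : Ordinal.{u} → Ordinal.{u} → Ordinal.{u} → Ordinal.{u},
      ∀ s : Ordinal.{u} → Ordinal.{u} → Ordinal.{u},
        (∀ i < lam.ord, ∀ j < lam.ord, s i j < κ.ord) →
        ∀ β < κ.ord, ∃ γ, β < γ ∧ γ < κ.ord ∧ ∀ i < lam.ord, ∀ j < lam.ord, D γ i j = s i j := by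
  classical
  have hlim := Cardinal.isSuccLimit_ord hκr.aleph0_le
  let L := lam.ord.ToType
  have hL : #L = lam := by simp [L]
  let K := κ.ord.ToType
  have hK : #K = κ := by simp [K]
  let o : K → Ordinal.{u} := fun a => ((Ordinal.ToType.mk (o := κ.ord)).symm a : Ordinal)
  have hoκ : ∀ a, o a < κ.ord := fun a => ((Ordinal.ToType.mk (o := κ.ord)).symm a).2
  have homk : ∀ β (h : β < κ.ord), o (Ordinal.ToType.mk ⟨β, h⟩) = β := by
    intro β h
    simp only [o, OrderIso.symm_apply_apply]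
  have hmko : ∀ a (h : o a < κ.ord), (Ordinal.ToType.mk ⟨o a, h⟩ : K) = a := by
    intro a h
    exact (Ordinal.ToType.mk (o := κ.ord)).apply_symm_apply a
  have h3 : #K = #(K × (L × L → K)) := by
    rw [Cardinal.mk_prod, Cardinal.lift_id, Cardinal.lift_id, ← Cardinal.power_def, hK,
      Cardinal.mk_prod, hL]
    simp only [Cardinal.lift_id, Cardinal.mul_eq_self hlam]
    apply le_antisymm
    · calc κ = κ * 1 := (mul_one κ).symm
        _ ≤ κ * κ ^ lam := by
          apply mul_le_mul_right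
          exact Cardinal.one_le_iff_ne_zero.2 (Cardinal.power_ne_zero _ hκr.ne_zero)
    · calc κ * κ ^ lam ≤ κ * κ := mul_le_mul_right h2 κ
        _ = κ := Cardinal.mul_eq_self hκr.aleph0_le
  obtain ⟨φ⟩ := Cardinal.eq.1 h3
  refine ⟨fun β i j => if h : β < κ.ord ∧ i < lam.ord ∧ j < lam.ord then
    o ((φ (Ordinal.ToType.mk ⟨β, h.1⟩)).2
      (Ordinal.ToType.mk ⟨i, h.2.1⟩, Ordinal.ToType.mk ⟨j, h.2.2⟩)) else 0, ?_⟩
  intro s hs β hβ
  let p : L → Ordinal.{u} := fun a => ((Ordinal.ToType.mk (o := lam.ord)).symm a : Ordinal)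
  have hp : ∀ a, p a < lam.ord := fun a => ((Ordinal.ToType.mk (o := lam.ord)).symm a).2
  let s' : L × L → K := fun q => Ordinal.ToType.mk ⟨s (p q.1) (p q.2), hs _ (hp _) _ (hp _)⟩
  by_contra hcon
  push Not at hcon
  have h4 : ∀ a : K, o (φ.symm (a, s')) ≤ β := by
    intro a
    by_contra hlt
    push Not at hlt
    obtain ⟨i, hi, j, hj, hij⟩ := hcon _ hlt (hoκ _)
    apply hij
    rw [dif_pos ⟨hoκ _, hi, hj⟩, hmko, Equiv.apply_symm_apply]
    show o (Ordinal.ToType.mk ⟨s (p _) (p _), _⟩) = s i j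
    rw [homk]
    simp only [p, OrderIso.symm_apply_apply]
  have hβ1 : β + 1 < κ.ord := hlim.add_one_lt hβ
  let t : K := Ordinal.ToType.mk ⟨β + 1, hβ1⟩
  have h5 : #(Iio t) < κ := by
    have := Cardinal.mk_Iio_lt t (by simp [K])
    rwa [hK] at this
  have h6 : #K ≤ #(Iio t) := by
    refine Cardinal.mk_le_of_injective (f := fun a : K => (⟨φ.symm (a, s'), ?_⟩ : Iio t)) ?_
    · have h7 : (Ordinal.ToType.mk (o := κ.ord)).symm (φ.symm (a, s')) < ⟨β + 1, hβ1⟩ := by
        show o (φ.symm (a, s')) < β + 1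
        exact (h4 a).trans_lt (lt_add_one _)
      have h8 := (Ordinal.ToType.mk (o := κ.ord)).strictMono h7
      rw [OrderIso.apply_symm_apply] at h8
      exact h8
    · intro a a' haa
      exact (Prod.mk.inj (φ.symm.injective (congrArg Subtype.val haa))).1
  rw [hK] at h6
  exact absurd h6 (not_le.2 h5)

/-- for `α < κ = λ⁺` an injection of `α` into `λ` -/
theorem exists_inj {lam κ : Cardinal.{u}} (hκ : κ = Order.succ lam) :
    ∃ r : Ordinal.{u} → Ordinal.{u} → Ordinal.{u}, ∀ α < κ.ord,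
      (∀ β < α, r α β < lam.ord) ∧ ∀ β < α, ∀ β' < α, r α β = r α β' → β = β' := by
  classical
  have hex : ∀ α < κ.ord, ∃ r : Ordinal.{u} → Ordinal.{u},
      (∀ β < α, r β < lam.ord) ∧ ∀ β < α, ∀ β' < α, r β = r β' → β = β' := by
    intro α hα
    have h1 : Cardinal.mk α.ToType ≤ Cardinal.mk lam.ord.ToType := by
      rw [Cardinal.mk_toType, Cardinal.mk_toType, Cardinal.card_ord]
      have := Cardinal.lt_ord.1 hα
      rw [hκ] at this
      exact Order.lt_succ_iff.1 this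
    obtain ⟨g⟩ := Cardinal.le_def _ _ |>.1 h1
    refine ⟨fun β => if h : β < α then
      ((Ordinal.ToType.mk (o := lam.ord)).symm (g (Ordinal.ToType.mk ⟨β, h⟩)) : Ordinal) else 0,
      fun β hβ => ?_, fun β hβ β' hβ' h => ?_⟩
    · simp only [dif_pos hβ]
      exact ((Ordinal.ToType.mk (o := lam.ord)).symm _).2
    · simp only [dif_pos hβ, dif_pos hβ'] at h
      have h2 := (Ordinal.ToType.mk (o := lam.ord)).symm.injective (Subtype.ext h)
      have h3 := (Ordinal.ToType.mk (o := α)).injective (g.injective h2)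
      exact congrArg Subtype.val h3
  choose! r hr1 hr2 using hex
  exact ⟨r, fun α hα => ⟨hr1 α hα, hr2 α hα⟩⟩

/-- Shelah: `2^λ = λ⁺` implies the guessing principle at `S^{λ⁺}_ω`, for regular uncountable `λ`. -/
theorem guess_shelah {lam κ : Cardinal.{u}} (hlr : lam.IsRegular) (h0 : ℵ₀ < lam)
    (hκ : κ = Order.succ lam) (h2 : κ ^ lam ≤ κ) : Guess κ := by
  classical
  have hlam := hlr.aleph0_le
  have hκr : κ.IsRegular := by
    rw [hκ]
    exact Cardinal.isRegular_succ hlam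
  have hlt : lam < κ := by
    rw [hκ]
    exact Order.lt_succ lam
  have h0κ : ℵ₀ < κ := hlam.trans_lt hlt
  have hlim := Cardinal.isSuccLimit_ord hκr.aleph0_le
  have hliml := Cardinal.isSuccLimit_ord hlam
  obtain ⟨D, hD⟩ := exists_coding hlam hκr h2
  obtain ⟨r, hr⟩ := exists_inj (lam := lam) hκ
  -- the sets `X` and the ladders
  let X : Ordinal.{u} → Ordinal.{u} → Ordinal.{u} → (Ordinal.{u} → Set Ordinal.{u}) →
      Set Ordinal.{u} := fun α i j H => {β | β < α ∧ r α β < i ∧ ∀ j' < j, D β i j' ∈ H j'}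
  let Y : Ordinal.{u} → Ordinal.{u} → Ordinal.{u} → (Ordinal.{u} → Set Ordinal.{u}) →
      Set Ordinal.{u} := fun α i j H => (fun β => D β i j) '' X α i j H
  have hlad : ∀ (i j : Ordinal.{u}) (H : Ordinal.{u} → Set Ordinal.{u}) (α : Ordinal.{u}),
      α.cof = ℵ₀ → ∃ S, Good α S ∧
        ((∀ β < α, ∃ γ ∈ Y α i j H, β ≤ γ ∧ γ < α) → S ⊆ Y α i j H) := by
    intro i j H α hα
    by_cases hc : ∀ β < α, ∃ γ ∈ Y α i j H, β ≤ γ ∧ γ < α
    · obtain ⟨S, h1, h2⟩ := exists_good_subset hα hc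
      exact ⟨S, h2, fun _ => h1⟩
    · obtain ⟨s, h3, h4, h5⟩ := exists_seq hα
      exact ⟨range s, good_range h3 h4 h5, fun h => absurd h hc⟩
  choose! N hN1 hN2 using hlad
  by_contra hcon
  have hbad : ∀ (i j : Ordinal.{u}) (H : Ordinal.{u} → Set Ordinal.{u}),
      ∃ B, CofinalIn κ B ∧ ∃ E, ClubIn κ E ∧
      ∀ α ∈ E, α < κ.ord → α.cof = ℵ₀ → sSup (N i j H α ∩ B) ≠ α := by
    intro i j H
    by_contra h3
    push Not at h3
    apply hcon
    refine ⟨N i j H, fun α _ hα => hN1 i j H α hα, fun B hB E hE => ?_⟩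
    obtain ⟨α, h4, h5, h6, h7⟩ := h3 B hB E hE
    exact ⟨α, ⟨h5, h6, h7⟩, h4⟩
  choose F hF G hG hFG using hbad
  -- recursion on `j`
  let BB : Ordinal.{u} → Ordinal.{u} → Set Ordinal.{u} := fun i =>
    WellFounded.fix (C := fun _ => Set Ordinal.{u}) Ordinal.lt_wf
      (fun j ih => F i j (fun j' => if h : j' < j then ih j' h else ∅))
  let HH : Ordinal.{u} → Ordinal.{u} → Ordinal.{u} → Set Ordinal.{u} :=
    fun i j j' => if j' < j then BB i j' else ∅
  have hBB : ∀ i j, BB i j = F i j (HH i j) := by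
    intro i j
    show WellFounded.fix (C := fun _ => Set Ordinal.{u}) Ordinal.lt_wf _ j = _
    rw [WellFounded.fix_eq]
    congr 1
  have hB : ∀ i j, CofinalIn κ (BB i j) := fun i j => by
    rw [hBB]; exact hF i j (HH i j)
  let E : Ordinal.{u} → Ordinal.{u} → Set Ordinal.{u} := fun i j => G i j (HH i j)
  have hE : ∀ i j, ClubIn κ (E i j) := fun i j => hG i j (HH i j)
  have hEB : ∀ i j, ∀ α ∈ E i j, α < κ.ord → α.cof = ℵ₀ →
      sSup (N i j (HH i j) α ∩ BB i j) ≠ α := by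
    intro i j
    rw [hBB]
    exact hFG i j (HH i j)
  have hXH : ∀ α i j, X α i j (HH i j) = X α i j (BB i) := by
    intro α i j
    ext β
    constructor
    · rintro ⟨h1, h3, h4⟩
      refine ⟨h1, h3, fun j' hj' => ?_⟩
      have := h4 j' hj'
      simp only [HH, if_pos hj'] at this
      exact this
    · rintro ⟨h1, h3, h4⟩
      refine ⟨h1, h3, fun j' hj' => ?_⟩
      simp only [HH, if_pos hj']
      exact h4 j' hj'
  have hs : ∀ β < κ.ord, ∀ i j, ∃ γ ∈ BB i j, β < γ := by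
    intro β hβ i j
    obtain ⟨γ, h3, h4⟩ := (hB i j).2 (β + 1) (hlim.add_one_lt hβ)
    exact ⟨γ, h3, (lt_add_one β).trans_le h4⟩
  choose! s hs1 hs2 using hs
  have hnx : ∀ β < κ.ord, ∀ i j, ∃ γ ∈ E i j, β < γ :=
    fun β hβ i j => (hE i j).exists_gt hκr hβ
  choose! nx hnx1 hnx2 using hnx
  have hcd : ∀ β < κ.ord, ∃ γ, β < γ ∧ γ < κ.ord ∧
      ∀ i < lam.ord, ∀ j < lam.ord, D γ i j = s β i j :=
    fun β hβ => hD _ (fun i _ j _ => (hB i j).1 (hs1 β hβ i j)) β hβ
  choose! cd hcd1 hcd2 hcd3 using hcd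
  let L := lam.ord.ToType
  have hL : #L = lam := by simp [L]
  let p : L → Ordinal.{u} := fun a => ((Ordinal.ToType.mk (o := lam.ord)).symm a : Ordinal)
  have hp : ∀ i (h : i < lam.ord), p (Ordinal.ToType.mk ⟨i, h⟩) = i := by
    intro i h
    simp only [p, OrderIso.symm_apply_apply]
  let h : Ordinal.{u} → Ordinal.{u} := fun β =>
    max (cd β) (⨆ q : L × L, max (s β (p q.1) (p q.2)) (nx β (p q.1) (p q.2)))
  have hh : ∀ β < κ.ord, h β < κ.ord := by
    intro β hβ
    refine max_lt (hcd2 β hβ) ?_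
    apply Ordinal.iSup_lt_of_lt_cof
    · rw [hκr.cof_ord, Cardinal.mk_prod, hL]
      simp only [Cardinal.lift_id, Cardinal.mul_eq_self hlam]
      exact hlt
    · exact fun q => max_lt ((hB _ _).1 (hs1 β hβ _ _)) ((hE _ _).1.1 (hnx1 β hβ _ _))
  have hle : ∀ β, ∀ i < lam.ord, ∀ j < lam.ord, max (s β i j) (nx β i j) ≤ h β := by
    intro β i hi j hj
    refine le_trans ?_ (le_max_right _ _)
    have := le_ciSup (f := fun q : L × L => max (s β (p q.1) (p q.2)) (nx β (p q.1) (p q.2)))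
      Ordinal.bddAbove_of_small (Ordinal.ToType.mk ⟨i, hi⟩, Ordinal.ToType.mk ⟨j, hj⟩)
    simp only [hp] at this
    exact this
  have hclub := clubIn_closure hκr h0κ hh
  obtain ⟨α, ⟨hα, hαl, hαh⟩, -, hαc⟩ := hclub.exists_cof_omega hκr h0κ hκr.ord_pos
  have hα0 : α ≠ 0 := fun h => hαl.ne_bot (by simpa using h)
  have hαE : ∀ i < lam.ord, ∀ j < lam.ord, α ∈ E i j := by
    intro i hi j hj
    refine (hE i j).2 α hα ⟨hα0, fun β hβ => ?_⟩
    have hβκ := hβ.trans hα
    exact ⟨nx β i j, hnx1 β hβκ i j, hnx2 β hβκ i j,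
      ((le_max_right _ _).trans (hle β i hi j hj)).trans_lt (hαh β hβ)⟩
  obtain ⟨a, ha1, ha2, ha3⟩ := exists_seq hαc
  have haκ : ∀ n, a n < κ.ord := fun n => (ha2 n).trans hα
  have hcα : ∀ n, cd (a n) < α := fun n => (le_max_left _ _).trans_lt (hαh _ (ha2 n))
  -- the level `i`
  set i : Ordinal.{u} := (⨆ n, r α (cd (a n))) + 1 with hi
  have hil : i < lam.ord := by
    apply hliml.add_one_lt
    exact iSup_nat_lt hlr h0 fun n => (hr α hα).1 _ (hcα n)
  have hri : ∀ n, r α (cd (a n)) < i := fun n =>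
    (le_ciSup (f := fun n => r α (cd (a n))) Ordinal.bddAbove_of_small n).trans_lt (lt_add_one _)
  have hXm : ∀ j ≤ lam.ord, ∀ n, cd (a n) ∈ X α i j (BB i) := by
    intro j hj n
    refine ⟨hcα n, hri n, fun j' hj' => ?_⟩
    rw [hcd3 _ (haκ n) i hil j' (hj'.trans_le hj)]
    exact hs1 _ (haκ n) i j'
  have hstep : ∀ j < lam.ord, ∃ β ∈ X α i j (BB i), D β i j ∉ BB i j := by
    intro j hj
    by_contra hno
    push Not at hno
    have hcof : ∀ β < α, ∃ γ ∈ Y α i j (HH i j), β ≤ γ ∧ γ < α := by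
      intro β hβ
      obtain ⟨n, hn⟩ := ha3 β hβ
      refine ⟨s (a n) i j, ⟨cd (a n), ?_, ?_⟩, ?_, ?_⟩
      · rw [hXH]
        exact hXm j hj.le n
      · exact hcd3 _ (haκ n) i hil j hj
      · exact hn.trans (hs2 _ (haκ n) i j).le
      · exact ((le_max_left _ _).trans (hle (a n) i hil j hj)).trans_lt (hαh _ (ha2 n))
    have h3 := hN2 i j (HH i j) α hαc hcof
    have h4 : N i j (HH i j) α ∩ BB i j = N i j (HH i j) α := by
      apply inter_eq_left.2
      intro x hx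
      obtain ⟨β, hβ, rfl⟩ := h3 hx
      rw [hXH] at hβ
      exact hno β hβ
    have h5 := hEB i j α (hαE i hil j hj) hα hαc
    rw [h4] at h5
    exact h5 (hN1 i j (HH i j) α hαc).2.1
  choose! w hw1 hw2 using hstep
  have hwinj : ∀ j < lam.ord, ∀ j' < lam.ord, r α (w j) = r α (w j') → j = j' := by
    intro j hj j' hj' heq
    have h3 := (hr α hα).2 _ (hw1 j hj).1 _ (hw1 j' hj').1 heq
    by_contra hne
    rcases lt_or_gt_of_ne hne with hlt' | hlt'
    · apply hw2 j hj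
      rw [h3]
      exact (hw1 j' hj').2.2 j hlt'
    · apply hw2 j' hj'
      rw [← h3]
      exact (hw1 j hj).2.2 j' hlt'
  have hcard : #(Iio lam.ord) ≤ #(Iio i) := by
    refine Cardinal.mk_le_of_injective
      (f := fun j : Iio lam.ord => (⟨r α (w j), (hw1 j j.2).2.1⟩ : Iio i)) ?_
    intro j j' hjj
    exact Subtype.ext (hwinj j j.2 j' j'.2 (congrArg Subtype.val hjj))
  rw [Cardinal.mk_Iio_ordinal, Cardinal.mk_Iio_ordinal, Cardinal.lift_le, Cardinal.card_ord] at hcard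
  exact absurd hcard (not_le.2 (Cardinal.lt_ord.1 hil))

end Pool.Agent.H9.Proxy
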