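import Pool.Agent.H9.Proxy.Compact
import Pool.Agent.H9.Proxy.Hyp

open Set Cardinal Ordinal Filter

universe u

namespace Pool.Agent.H9.Proxy

theorem unbounded_of_mk {κ : Cardinal.{u}} {B : Set κ.ord.ToType} (h : κ ≤ #B)
    (β : κ.ord.ToType) : ∃ x ∈ B, β < x ∨ β = x := by
  by_contra hcon
  push Not at hcon
  have h1 : B ⊆ Iio β := by
    intro x hx
    obtain ⟨h2, h3⟩ := hcon x hx
    exact lt_of_le_of_ne h2 (Ne.symm h3)
  have h2 : #(Iio β) < κ := by
    have := Cardinal.mk_Iio_lt β (by simp)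
    simpa using this
  exact absurd (h.trans (Cardinal.mk_le_mk_of_subset h1)) (not_le.2 h2)

/-- the filter property of weakly compact cardinals, for families indexed by ordinals -/
theorem exists_filter {κ : Cardinal.{u}} (hκ : WeaklyCompact κ)
    (A : Ordinal.{u} → Set κ.ord.ToType) : ∃ F : Filter κ.ord.ToType, F.NeBot ∧
      CardinalInterFilter F κ ∧ (∀ β, ∀ᶠ x in F, β ≤ x) ∧
      ∀ ξ < κ.ord, (∀ᶠ x in F, x ∈ A ξ) ∨ (∀ᶠ x in F, x ∉ A ξ) := by
  classical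
  obtain ⟨hin, htree⟩ := hκ
  have hr : κ.IsRegular := hin.isRegular
  have hlim := Cardinal.isSuccLimit_ord hr.aleph0_le
  let P : Ordinal.{u} → Set Ordinal.{u} → Set κ.ord.ToType :=
    fun ξ s => {x | ∀ η < ξ, (η ∈ s ↔ x ∈ A η)}
  obtain ⟨b, hb⟩ := htree (fun ξ => {s | s ⊆ Iio ξ ∧ ∀ β, ∃ x ∈ P ξ s, β ≤ x}) (by
    intro ξ hξ
    refine ⟨?_, fun s hs => hs.1⟩
    let g : κ.ord.ToType → Set ξ.ToType :=
      fun x => {t | x ∈ A ((Ordinal.ToType.mk (o := ξ)).symm t)}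
    obtain ⟨a, ha⟩ := Cardinal.infinite_pigeonhole g (by simpa using hr.aleph0_le) (by
      rw [Cardinal.mk_set, Cardinal.mk_toType, Cardinal.mk_toType, Cardinal.card_ord, hr.cof_ord]
      exact hin.isStrongLimit.isStrongPrelimit (Cardinal.lt_ord.1 hξ))
    rw [Cardinal.mk_toType, Cardinal.card_ord] at ha
    refine ⟨{η | ∃ h : η < ξ, (Ordinal.ToType.mk ⟨η, h⟩ : ξ.ToType) ∈ a}, ?_, ?_⟩
    · rintro η ⟨h, -⟩
      exact h
    · intro β
      obtain ⟨x, hx, h1⟩ := unbounded_of_mk ha.ge β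
      refine ⟨x, ?_, ?_⟩
      · intro η hη
        have h2 : g x = a := hx
        constructor
        · rintro ⟨h, h3⟩
          rw [← h2] at h3
          have h4 : x ∈ A ((Ordinal.ToType.mk (o := ξ)).symm (Ordinal.ToType.mk ⟨η, h⟩)) := h3
          rwa [OrderIso.symm_apply_apply] at h4
        · intro h3
          refine ⟨hη, ?_⟩
          rw [← h2]
          show x ∈ A ((Ordinal.ToType.mk (o := ξ)).symm (Ordinal.ToType.mk ⟨η, hη⟩))
          rwa [OrderIso.symm_apply_apply]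
      · rcases h1 with h1 | h1
        · exact h1.le
        · exact h1.le) (by
    rintro ξ hξ s ⟨h1, h2⟩ η hη
    refine ⟨inter_subset_right, fun β => ?_⟩
    obtain ⟨x, hx, h3⟩ := h2 β
    refine ⟨x, fun ζ hζ => ?_, h3⟩
    rw [← hx ζ (hζ.trans hη)]
    exact ⟨fun h => h.1, fun h => ⟨h, hζ⟩⟩)
  let Q : Ordinal.{u} → Set κ.ord.ToType := fun ξ => {x | ∀ η < ξ, (η ∈ b ↔ x ∈ A η)}
  have hQ : ∀ ξ < κ.ord, ∀ β, ∃ x ∈ Q ξ, β ≤ x := by
    intro ξ hξ β
    obtain ⟨x, hx, h1⟩ := (hb ξ hξ).2 β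
    refine ⟨x, fun η hη => ?_, h1⟩
    rw [← hx η hη]
    exact ⟨fun h => ⟨h, hη⟩, fun h => h.1⟩
  have hQm : ∀ ξ ξ', ξ ≤ ξ' → Q ξ' ⊆ Q ξ := fun ξ ξ' h x hx η hη => hx η (hη.trans_le h)
  have hne : Nonempty κ.ord.ToType := Ordinal.nonempty_toType_iff.2 hr.ord_pos.ne'
  let F : Filter κ.ord.ToType :=
    { sets := {B | ∃ ξ < κ.ord, ∃ β, Q ξ ∩ Ici β ⊆ B}
      univ_sets := ⟨0, hr.ord_pos, Classical.arbitrary _, subset_univ _⟩
      sets_of_superset := by
        rintro B B' ⟨ξ, h1, β, h2⟩ h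
        exact ⟨ξ, h1, β, h2.trans h⟩
      inter_sets := by
        rintro B B' ⟨ξ, h1, β, h2⟩ ⟨ξ', h1', β', h2'⟩
        refine ⟨max ξ ξ', max_lt h1 h1', max β β', fun x hx => ⟨h2 ⟨?_, ?_⟩, h2' ⟨?_, ?_⟩⟩⟩
        · exact hQm _ _ (le_max_left _ _) hx.1
        · exact (le_max_left _ _).trans (mem_Ici.1 hx.2)
        · exact hQm _ _ (le_max_right _ _) hx.1
        · exact (le_max_right _ _).trans (mem_Ici.1 hx.2) }
  refine ⟨F, ?_, ?_, ?_, ?_⟩
  · rw [Filter.neBot_iff]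
    intro h
    have h1 : (∅ : Set κ.ord.ToType) ∈ F := by rw [h]; exact Filter.mem_bot
    obtain ⟨ξ, h2, β, h3⟩ := h1
    obtain ⟨x, hx, h4⟩ := hQ ξ h2 β
    exact h3 ⟨hx, h4⟩
  · refine ⟨fun S hS h => ?_⟩
    choose! ξ h1 β h2 using fun B (hB : B ∈ S) => (h B hB : ∃ ξ < κ.ord, ∃ β, Q ξ ∩ Ici β ⊆ B)
    have h3 : ⨆ B : S, ξ B < κ.ord := by
      apply Ordinal.iSup_lt_of_lt_cof
      · rwa [hr.cof_ord]
      · exact fun B => h1 B B.2
    have h4 : ⨆ B : S, ((Ordinal.ToType.mk (o := κ.ord)).symm (β B) : Ordinal) < κ.ord := by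
      apply Ordinal.iSup_lt_of_lt_cof
      · rwa [hr.cof_ord]
      · exact fun B => ((Ordinal.ToType.mk (o := κ.ord)).symm (β B)).2
    refine ⟨_, h3, Ordinal.ToType.mk ⟨_, h4⟩, fun x hx B hB => h2 B hB ⟨?_, ?_⟩⟩
    · refine hQm _ _ ?_ hx.1
      exact le_ciSup (f := fun B : S => ξ B) Ordinal.bddAbove_of_small ⟨B, hB⟩
    · refine le_trans ?_ (mem_Ici.1 hx.2)
      rw [← OrderIso.symm_apply_le]
      show ((Ordinal.ToType.mk (o := κ.ord)).symm (β B) : Ordinal) ≤ _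
      exact le_ciSup (f := fun B : S => ((Ordinal.ToType.mk (o := κ.ord)).symm (β B) : Ordinal))
        Ordinal.bddAbove_of_small ⟨B, hB⟩
  · intro β
    exact ⟨0, hr.ord_pos, β, fun x hx => hx.2⟩
  · intro ξ hξ
    have h1 : ξ + 1 < κ.ord := hlim.add_one_lt hξ
    by_cases h : ξ ∈ b
    · left
      refine ⟨ξ + 1, h1, Classical.arbitrary _, fun x hx => ?_⟩
      exact (hx.1 ξ (lt_add_one _)).1 h
    · right
      refine ⟨ξ + 1, h1, Classical.arbitrary _, fun x hx hxA => ?_⟩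
      exact h ((hx.1 ξ (lt_add_one _)).2 hxA)

/-- the functions generated from `g₀` by `f ↦ min (c_{f x} \ (β + 1))` and predecessors -/
noncomputable def genF {K : Type u} (o : K → Ordinal.{u}) (c : Ordinal.{u} → Set Ordinal.{u}) :
    List (K ⊕ PUnit.{u + 1}) → K → Ordinal.{u}
  | [] => o
  | Sum.inl β :: l => fun x => min (sInf {δ | δ ∈ c (genF o c l x) ∧ o β < δ}) (genF o c l x)
  | Sum.inr _ :: l => fun x => Ordinal.pred (genF o c l x)

theorem genF_lt {κ : Cardinal.{u}} {K : Type u} (o : K → Ordinal.{u}) (ho : ∀ x, o x < κ.ord)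
    (c : Ordinal.{u} → Set Ordinal.{u}) : ∀ l x, genF o c l x < κ.ord
  | [], x => ho x
  | Sum.inl _ :: l, x => (min_le_right _ _).trans_lt (genF_lt o ho c l x)
  | Sum.inr _ :: l, x => (Ordinal.pred_le_self _).trans_lt (genF_lt o ho c l x)

/-- minimal unbounded function in a family, modulo a countably complete filter -/
theorem exists_minimal_family {κ : Cardinal.{u}} {X : Type u} (F : Filter X) [F.NeBot]
    [CountableInterFilter F] (G : Set (X → Ordinal.{u})) (f₀ : X → Ordinal.{u}) (h0 : f₀ ∈ G)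
    (h2 : ∀ β < κ.ord, ∀ᶠ x in F, β < f₀ x) :
    ∃ f ∈ G, (∀ β < κ.ord, ∀ᶠ x in F, β < f x) ∧
      ∀ g ∈ G, (∀ᶠ x in F, g x < f x) → ∃ β < κ.ord, ¬ ∀ᶠ x in F, β < g x := by
  let r : (X → Ordinal.{u}) → (X → Ordinal.{u}) → Prop := fun g f => ∀ᶠ x in F, g x < f x
  have hwf : WellFounded r := by
    rw [wellFounded_iff_isEmpty_descending_chain]
    refine ⟨fun ⟨s, hs⟩ => ?_⟩
    have h3 : ∀ᶠ x in F, ∀ n, s (n + 1) x < s n x := by
      rw [eventually_countable_forall]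
      exact hs
    obtain ⟨x, hx⟩ := h3.exists
    have : WellFounded ((· < ·) : Ordinal.{u} → Ordinal.{u} → Prop) := Ordinal.lt_wf
    rw [wellFounded_iff_isEmpty_descending_chain] at this
    exact this.false ⟨fun n => s n x, hx⟩
  let S : Set (X → Ordinal.{u}) := {f | f ∈ G ∧ ∀ β < κ.ord, ∀ᶠ x in F, β < f x}
  have hS : S.Nonempty := ⟨f₀, h0, h2⟩
  obtain ⟨hf1, hf2⟩ := hwf.min_mem S hS
  set f := hwf.min S hS with hf
  refine ⟨f, hf1, hf2, fun g hg hgf => ?_⟩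
  by_contra hcon
  push Not at hcon
  have hgS : g ∈ S := ⟨hg, hcon⟩
  exact hwf.not_lt_min S hgS hgf

theorem reflects_of_weaklyCompact {κ χ : Cardinal.{u}} (hκ : WeaklyCompact κ) (hχ0 : ℵ₀ ≤ χ)
    (hχ : χ < κ) : Reflects κ χ := by
  classical
  have hin := hκ.1
  have hr : κ.IsRegular := hin.isRegular
  have h0κ : ℵ₀ < κ := hχ0.trans_lt hχ
  have hlim := Cardinal.isSuccLimit_ord hr.aleph0_le
  refine reflects_of_data hr h0κ hχ0 hχ fun c hc => ?_
  let K := κ.ord.ToType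
  have hK : #K = κ := by simp [K]
  let o : K → Ordinal.{u} := fun a => ((Ordinal.ToType.mk (o := κ.ord)).symm a : Ordinal)
  have hoκ : ∀ a, o a < κ.ord := fun a => ((Ordinal.ToType.mk (o := κ.ord)).symm a).2
  have homk : ∀ β (h : β < κ.ord), o (Ordinal.ToType.mk ⟨β, h⟩) = β := by
    intro β h
    simp only [o, OrderIso.symm_apply_apply]
  -- the family of sets to be decided
  let J := List (K ⊕ PUnit.{u + 1}) × (K ⊕ PUnit.{u + 1})
  let D : J → Set K
    | (l, Sum.inl β) => {x | o β < genF o c l x}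
    | (l, Sum.inr _) => {x | Order.IsSuccLimit (genF o c l x)}
  have hJ : #J = κ := by
    have h1 : #(K ⊕ PUnit.{u + 1}) = κ := by
      rw [Cardinal.mk_sum, Cardinal.lift_id, Cardinal.lift_id, hK, Cardinal.mk_punit]
      exact Cardinal.add_one_eq hr.aleph0_le
    have : Infinite (K ⊕ PUnit.{u + 1}) := by
      rw [Cardinal.infinite_iff, h1]
      exact hr.aleph0_le
    rw [Cardinal.mk_prod, Cardinal.lift_id, Cardinal.lift_id, Cardinal.mk_list_eq_mk, h1,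
      Cardinal.mul_eq_self hr.aleph0_le]
  obtain ⟨e⟩ := Cardinal.eq.1 (hJ.trans hK.symm)
  obtain ⟨F, hF1, hF2, hF3, hF4⟩ := exists_filter hκ
    (fun ξ => if h : ξ < κ.ord then D (e.symm (Ordinal.ToType.mk ⟨ξ, h⟩)) else ∅)
  have hcount : CountableInterFilter F := CardinalInterFilter.toCountableInterFilter _ h0κ
  have hdec : ∀ j, (∀ᶠ x in F, x ∈ D j) ∨ (∀ᶠ x in F, x ∉ D j) := by
    intro j
    have h1 := hF4 (o (e j)) (hoκ _)
    rw [dif_pos (hoκ _)] at h1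
    have h2 : (Ordinal.ToType.mk ⟨o (e j), hoκ _⟩ : K) = e j :=
      (Ordinal.ToType.mk (o := κ.ord)).apply_symm_apply (e j)
    rw [h2, Equiv.symm_apply_apply] at h1
    exact h1
  have hunb0 : ∀ β < κ.ord, ∀ᶠ x in F, β < o x := by
    intro β hβ
    have hβ1 := hlim.add_one_lt hβ
    filter_upwards [hF3 (Ordinal.ToType.mk ⟨β + 1, hβ1⟩)] with x hx
    have h1 : o (Ordinal.ToType.mk ⟨β + 1, hβ1⟩) ≤ o x :=
      (Ordinal.ToType.mk (o := κ.ord)).symm.monotone hx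
    rw [homk] at h1
    exact (lt_add_one _).trans_le h1
  obtain ⟨f, ⟨l, rfl⟩, hf2, hf3⟩ := exists_minimal_family F (range (genF o c)) o ⟨[], rfl⟩ hunb0
  have hf3' : ∀ l', (∀ᶠ x in F, genF o c l' x < genF o c l x) →
      ∃ β < κ.ord, ∀ᶠ x in F, genF o c l' x ≤ β := by
    intro l' h
    obtain ⟨β, hβ, h1⟩ := hf3 _ ⟨l', rfl⟩ h
    refine ⟨β, hβ, ?_⟩
    rcases hdec (l', Sum.inl (Ordinal.ToType.mk ⟨β, hβ⟩)) with h2 | h2
    · exfalso
      apply h1
      filter_upwards [h2] with x hx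
      have h3 : o (Ordinal.ToType.mk ⟨β, hβ⟩) < genF o c l' x := hx
      rwa [homk] at h3
    · filter_upwards [h2] with x hx
      have h3 : ¬ o (Ordinal.ToType.mk ⟨β, hβ⟩) < genF o c l' x := hx
      rw [homk] at h3
      exact not_lt.1 h3
  have hl : ∀ᶠ x in F, Order.IsSuccLimit (genF o c l x) := by
    rcases hdec (l, Sum.inr PUnit.unit) with h1 | h1
    · exact h1
    · exfalso
      have h2 : ∀ᶠ x in F, genF o c l x = genF o c (Sum.inr PUnit.unit :: l) x + 1 := by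
        filter_upwards [h1, hf2 0 hr.ord_pos] with x h3 h4
        rcases Ordinal.zero_or_succ_or_isSuccLimit (genF o c l x) with h | h | h
        · exact absurd h h4.ne'
        · obtain ⟨a, ha⟩ := h
          show genF o c l x = Ordinal.pred (genF o c l x) + 1
          rw [← ha]
          simp
        · exact absurd h h3
      obtain ⟨β, hβ, h3⟩ := hf3' (Sum.inr PUnit.unit :: l) (by
        filter_upwards [h2] with x hx
        have hx' : genF o c l x = genF o c (Sum.inr PUnit.unit :: l) x + 1 := hx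
        show genF o c (Sum.inr PUnit.unit :: l) x < genF o c l x
        exact (lt_add_one _).trans_eq hx'.symm)
      obtain ⟨x, ⟨h4, h5⟩, h6⟩ := ((h2.and h3).and (hf2 _ (hlim.add_one_lt hβ))).exists
      rw [h4] at h6
      exact absurd h6 (not_lt.2 (add_le_add_left h5 1))
  refine ⟨K, F, genF o c l, ⟨hF1, hF2, genF_lt o hoκ c l, hf2, hl, ?_⟩⟩
  intro β hβ
  have hkey : ∀ᶠ x in F, sInf {δ | δ ∈ c (genF o c l x) ∧ β < δ} < genF o c l x := by
    filter_upwards [hl, hf2 β hβ] with x h3 h4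
    obtain ⟨hK, hs⟩ := hc _ (genF_lt o hoκ c l x) h3
    obtain ⟨δ, hδ, h5, h6⟩ := hK.exists_gt (β := β) (by rwa [hs])
    rw [hs] at h6
    have h7 : δ ∈ {δ | δ ∈ c (genF o c l x) ∧ β < δ} := ⟨hδ, h5⟩
    exact (csInf_le' h7).trans_lt h6
  have hgen : ∀ x, genF o c (Sum.inl (Ordinal.ToType.mk ⟨β, hβ⟩) :: l) x =
      min (sInf {δ | δ ∈ c (genF o c l x) ∧ β < δ}) (genF o c l x) := by
    intro x
    show min (sInf {δ | δ ∈ c (genF o c l x) ∧ o (Ordinal.ToType.mk ⟨β, hβ⟩) < δ}) _ = _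
    rw [homk]
  obtain ⟨β', hβ', h1⟩ := hf3' (Sum.inl (Ordinal.ToType.mk ⟨β, hβ⟩) :: l) (by
    filter_upwards [hkey] with x hx
    have hx' : sInf {δ | δ ∈ c (genF o c l x) ∧ β < δ} < genF o c l x := hx
    exact ((hgen x).le.trans (min_le_left _ _)).trans_lt hx')
  refine ⟨β', hβ', ?_⟩
  filter_upwards [h1, hkey] with x h2 h3
  have h3' : sInf {δ | δ ∈ c (genF o c l x) ∧ β < δ} < genF o c l x := h3
  have h4 := (hgen x).trans (min_eq_left h3'.le)
  exact h4.symm.le.trans h2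

end Pool.Agent.H9.Proxy
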